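import Mathlib
import Pool.Agent.T2h17.HW.Mon

/-!
# Almost all algebraic points of an arbitrary variation of mixed Hodge structure are Hodge generic

Let `𝒱` be an arbitrary variation of mixed Hodge structure of rank `n` on an open part of the projective
line which comes from a family of varieties over `ℚ(x)` and has unipotent (or trivial) local monodromy at
`x = 0`; the weights and the Hodge numbers are arbitrary, the monodromy group is arbitrary and the number
of the singularities is arbitrary. With respect to a basis of sections over `ℚ(x)` adapted to the Hodge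
filtration and a suitable basis of flat sections, the period matrix is `H(x) x^N` with an invertible matrix
`H` of G-functions with rational coefficients and a rational nilpotent matrix `N`. The rational structure
is given by an invertible matrix `C` (its entries are periods of the limiting mixed Hodge structure).

The connected component of the Zariski closure of the monodromy group (which is the differential Galois
group) is an extension of a semisimple by a unipotent group; its subgroup `G₁` which fixes `log x` is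
generated by unipotent one-parameter groups `exp (s X)`, `X ∈ 𝒩`; it acts on the relations between the
entries of `H`, it is normalised by `exp (s N)`, and its Lie algebra and `N` span the Lie algebra of the
monodromy group. The point `x` is Hodge generic (it is not in the Hodge locus) if and only if the
Mumford–Tate group of the fibre contains the connected monodromy group (Deligne, André).

We prove that almost all algebraic points near `x = 0`, and almost all tuples of such points, are Hodge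
generic: with at most `n ^ 2 + 2` exceptions the points of a window `x = 1 / (ξ - G u)`, `u = 1, …, W`,
where `ξ` is algebraic of bounded degree and of height polynomial in `|ξ|`, are Hodge generic, and any `k`
of them form a Hodge generic point of the product of `k` copies of the variation; and all but
`K T^(-c) N^k` of the `k`-tuples of the `N` algebraic integers of degree at most `g` and house at most `T`
are Hodge generic points of this product. The bounds are uniform in all rational structures `C`. So the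
Hodge locus of `𝒱^k`, hence its atypical part, contains almost none of these points.

For a rational Lie algebra `𝔩` of the monodromy group it suffices that `𝔩` is generated over `ℚ` by its
elements of negative degree (the other case is a quotient of type `(0, 0)`, on which the monodromy of a
variation with an integral structure is finite). We prove it for the symplectic and the orthogonal Lie
algebras, so that the theorem applies without any further condition to the pure polarised variations with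
the largest monodromy group.

Proof. Relations of bounded degree between the values of the G-functions, the logarithms and the entries
of `C` hold on the orbits of `G₁` and for all values of the logarithms (the theorem on values of
G-functions at algebraic points of windows and at tuples, projects of helper916 and others). If `Y` is not
in the complexification of the Lie algebra `𝔪`, an ultraproduct of counterexamples gives a derivation `D`
of a field with `D(P) = P Y` for the period matrices `P`, which kills `C`, and a rational Lie algebra `𝔪`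
whose complexification contains `Φ` but not `Y`, and then the derivative of the equation `P Φ = Φ₀ P` shows
that `Y` is in the complexification of `𝔪` if the degree of `Y` is not a natural number.
-/

set_option autoImplicit false

open PowerSeries

namespace Pool.Agent.Results.MP_eeb1a4_ag.ArbitraryVariations

/-- an integer polynomial as a power series with rational coefficients -/
noncomputable def toQ (P : Polynomial ℤ) : PowerSeries ℚ :=
  ((P.map (Int.castRingHom ℚ) : Polynomial ℚ) : PowerSeries ℚ)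

/-- the power series `P(u^e)` -/
noncomputable def atPow (e : ℕ) (P : Polynomial ℤ) : PowerSeries ℂ :=
  ((Polynomial.expand ℂ e (P.map (Int.castRingHom ℂ)) : Polynomial ℂ) : PowerSeries ℂ)

/-- the matrices `G_s` over `ℤ[x]` with `T^s y^(s) = G_s y` for all solutions `y` of `T y' = A y` -/
noncomputable def iter {r : ℕ} (T : Polynomial ℤ) (A : Fin r → Fin r → Polynomial ℤ) :
    ℕ → Fin r → Fin r → Polynomial ℤ
  | 0 => fun i j => if i = j then 1 else 0
  | s + 1 => fun i j => T * Polynomial.derivative (iter T A s i j) + ∑ l, iter T A s i l * A l j -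
      (s : Polynomial ℤ) * (Polynomial.derivative T * iter T A s i j)

/-- The system `T y' = A y` has a fundamental matrix of solutions of the form `u^(-M) ∑_n Φ_n(u) (log u)^n`
with `u^e = x` and convergent power series `Φ_n`: the point `0` is an ordinary point or a regular
singularity with rational exponents. -/
def QuasiUnipotent {r : ℕ} (T : Polynomial ℤ) (A : Fin r → Fin r → Polynomial ℤ) : Prop :=
  ∃ (e M : ℕ) (K : ℝ) (Φ : Matrix (Fin r) (Fin r) (Polynomial (PowerSeries ℂ))), 1 ≤ e ∧ Φ.det ≠ 0 ∧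
    (∀ i j n m, ‖coeff m ((Φ i j).coeff n)‖ ≤ K ^ (m + 1)) ∧
    ∀ i j n, atPow e T * (X * PowerSeries.derivative ℂ ((Φ i j).coeff n) +
        ((n : PowerSeries ℂ) + 1) * (Φ i j).coeff (n + 1) - (M : PowerSeries ℂ) * (Φ i j).coeff n) =
      (e : PowerSeries ℂ) * X ^ e * ∑ l, atPow e (A i l) * (Φ l j).coeff n

/-- `h_1, ..., h_r` are G-functions with rational coefficients which solve the differential system
`T y' = A y`, with the conditions of Siegel and Galochkin, and the system is regular with rational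
exponents at `0`. -/
structure GFamily {r : ℕ} (T : Polynomial ℤ) (A : Fin r → Fin r → Polynomial ℤ)
    (h : Fin r → PowerSeries ℚ) : Prop where
  /-- the denominator is not zero -/
  T_ne : T ≠ 0
  /-- the differential equations -/
  ode : ∀ i, toQ T * PowerSeries.derivative ℚ (h i) = ∑ j, toQ (A i j) * h j
  /-- the coefficients have geometric growth -/
  size : ∃ C : ℝ, ∀ i m, |((coeff m (h i) : ℚ) : ℝ)| ≤ C ^ (m + 1)
  /-- the common denominators of the coefficients have geometric growth -/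
  den : ∃ C : ℝ, ∀ m : ℕ, ∃ d : ℕ, 0 < d ∧ (d : ℝ) ≤ C ^ (m + 1) ∧
    ∀ i, ∀ j ≤ m, ∃ a : ℤ, (d : ℚ) * coeff j (h i) = a
  /-- Galochkin's condition: the common denominators of the matrices `G_s / s!` have geometric growth -/
  galochkin : ∃ C : ℝ, ∀ m : ℕ, ∃ d : ℕ, 0 < d ∧ (d : ℝ) ≤ C ^ (m + 1) ∧ ∀ s ≤ m, ∀ i j,
    ∃ H : Polynomial ℤ, (d : Polynomial ℤ) * iter T A s i j = (s.factorial : Polynomial ℤ) * H
  /-- the local exponents at `0` are rational and the singularity is regular -/
  regular : QuasiUnipotent T A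

/-- the entries of a matrix -/
def entries {n : ℕ} (H : Matrix (Fin n) (Fin n) (PowerSeries ℚ)) : Fin (n * n) → PowerSeries ℚ :=
  fun a => H (finProdFinEquiv.symm a).1 (finProdFinEquiv.symm a).2

/-- rational matrices as complex matrices -/
def toC {ι : Type} (M : Matrix ι ι ℚ) : Matrix ι ι ℂ := M.map fun x : ℚ => (x : ℂ)

/-- the value of `H` at `z` -/
noncomputable def val {n : ℕ} (H : Matrix (Fin n) (Fin n) (PowerSeries ℚ)) (z : ℂ) :
    Matrix (Fin n) (Fin n) ℂ :=
  Matrix.of fun i j => ∑' k : ℕ, ((coeff k (H i j) : ℚ) : ℂ) * z ^ k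

/-- the exponential `exp (s X)` of a nilpotent matrix -/
noncomputable def expN {n : ℕ} (X : Matrix (Fin n) (Fin n) ℂ) (s : ℂ) : Matrix (Fin n) (Fin n) ℂ :=
  ∑ a ∈ Finset.range n, (s ^ a / (a.factorial : ℂ)) • X ^ a

/-- The monodromy of the variation with the period matrix `H(x) x^N`: the matrices `X ∈ 𝒩` are
nilpotent, all polynomial relations `R(x, H(x)) = 0` over `ℚ[x]` between the entries of `H` hold near
`x = 0` also for the matrices `H(x) g`, where `g` is a product of matrices `exp (s X)`, `X ∈ 𝒩`, and the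
span of `𝒩` is normalised by the local monodromy `exp (2 π i N)` (it is the Lie algebra of the subgroup of
the monodromy group which fixes `log x`). -/
structure Monodromy {n : ℕ} (H : Matrix (Fin n) (Fin n) (PowerSeries ℚ))
    (N : Matrix (Fin n) (Fin n) ℚ) (𝒩 : Set (Matrix (Fin n) (Fin n) ℂ)) : Prop where
  det : H.det ≠ 0
  nil : N ^ n = 0
  dir : ∀ X ∈ 𝒩, X ^ n = 0
  normal : ∀ X ∈ 𝒩, ∀ s : ℂ, expN (toC N) s * X * expN (toC N) (-s) ∈ Submodule.span ℂ 𝒩
  inv : ∃ ρ : ℝ, 0 < ρ ∧ ∀ R : MvPolynomial (Fin n × Fin n) (Polynomial ℚ),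
    MvPolynomial.aeval (fun a : Fin n × Fin n => H a.1 a.2) R = 0 → ∀ z : ℂ, ‖z‖ < ρ →
      ∀ g ∈ Submonoid.closure {g | ∃ X ∈ 𝒩, ∃ s : ℂ, g = expN X s},
      MvPolynomial.eval₂ (Polynomial.aeval z : Polynomial ℚ →ₐ[ℚ] ℂ).toRingHom
        (fun a => (val H z * g) a.1 a.2) R = 0

/-- The period matrix `H(x) x^N = H(x) exp (N log x)` at `x = 1 / ξ`, with the value `-l` of `log x`,
where `exp l = ξ`. -/
noncomputable def per {n : ℕ} (H : Matrix (Fin n) (Fin n) (PowerSeries ℚ)) (N : Matrix (Fin n) (Fin n) ℚ)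
    (ξ l : ℂ) : Matrix (Fin n) (Fin n) ℂ := val H (1 / ξ) * expN (toC N) (-l)

/-- The step `F^p` of the Hodge filtration at the point `x = 1 / ξ` in the rational coordinates: the
span of the rows with a level `≥ p` of the period matrix; the levels `lev` can be any integers. -/
noncomputable def F {n : ℕ} (lev : Fin n → ℤ) (H : Matrix (Fin n) (Fin n) (PowerSeries ℚ))
    (N : Matrix (Fin n) (Fin n) ℚ) (ξ l : ℂ) (C : Matrix (Fin n) (Fin n) ℂ) (p : ℤ) :
    Submodule ℂ (Fin n → ℂ) :=
  Submodule.span ℂ {v | ∃ i : Fin n, p ≤ lev i ∧ v = (per H N ξ l * C) i}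

/-- a Lie algebra of rational matrices -/
def IsLie {ι : Type} [Fintype ι] (𝔪 : Submodule ℚ (Matrix ι ι ℚ)) : Prop :=
  ∀ X ∈ 𝔪, ∀ Y ∈ 𝔪, X * Y - Y * X ∈ 𝔪

/-- the complexification of a space of rational matrices -/
def cplx {ι : Type} (𝔪 : Submodule ℚ (Matrix ι ι ℚ)) : Submodule ℂ (Matrix ι ι ℂ) :=
  Submodule.span ℂ (toC '' (𝔪 : Set (Matrix ι ι ℚ)))

/-- A Hodge operator acts (from the right) on `F^p / F^(p+1)` as the multiplication by `p`. For a Hodge
structure, or a mixed Hodge structure with its Deligne splitting, the operator which is the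
multiplication by `p` on the parts of type `(p, q)` is the derivative of a cocharacter of the
Mumford–Tate group. -/
def HodgeOperator {n : ℕ} (F : ℤ → Submodule ℂ (Fin n → ℂ)) (Φ : Matrix (Fin n) (Fin n) ℂ) : Prop :=
  ∀ p, ∀ v ∈ F p, Matrix.vecMul v Φ - (p : ℂ) • v ∈ F (p + 1)

/-- The rational Lie algebra `𝔩` is generated by its elements of negative degree: every rational Lie
algebra `𝔞` whose complexification contains the elements `Y` of the complexification of `𝔩` with
`Y Φ - Φ Y = i Y`, `i < 0`, contains `𝔩`. -/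
def GeneratedByNegative {n : ℕ} (𝔩 : Submodule ℚ (Matrix (Fin n) (Fin n) ℚ))
    (Φ : Matrix (Fin n) (Fin n) ℂ) : Prop :=
  ∀ 𝔞 : Submodule ℚ (Matrix (Fin n) (Fin n) ℚ), IsLie 𝔞 →
    (∀ i : ℤ, i < 0 → ∀ Y ∈ cplx 𝔩, Y * Φ - Φ * Y = (i : ℂ) • Y → Y ∈ cplx 𝔞) → 𝔩 ≤ 𝔞

/-- The points `x = 1 / α_j` of the disc `|x| < ρ` are jointly Hodge generic for the variation with the
rational structure `C`: for all logarithms `l_j` of `α_j`, all rational Lie algebras `𝔩` in the Lie
algebra of the monodromy group, all Hodge operators `Φ_j` of the fibres such that `𝔩` is generated by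
its elements of negative degree, and all rational Lie algebras `𝔪` of matrices of size `n k` whose
complexification contains the Hodge operator `(Φ_1, …, Φ_k)` of the direct sum of the fibres (for
example the Lie algebra of the Mumford–Tate group of this sum), `𝔪` contains `𝔩 × ⋯ × 𝔩`. -/
def JointlyGeneric {n k : ℕ} (lev : Fin n → ℤ) (H : Matrix (Fin n) (Fin n) (PowerSeries ℚ))
    (N : Matrix (Fin n) (Fin n) ℚ) (𝒩 : Set (Matrix (Fin n) (Fin n) ℂ)) (ρ : ℝ) (α : Fin k → ℂ)
    (C : Matrix (Fin n) (Fin n) ℂ) : Prop :=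
  (∀ j, ‖1 / α j‖ < ρ ∧ α j ≠ 0) ∧ ∀ l : Fin k → ℂ, (∀ j, Complex.exp (l j) = α j) →
    ∀ 𝔩 : Submodule ℚ (Matrix (Fin n) (Fin n) ℚ),
    (∀ X ∈ 𝔩, C * toC X * C⁻¹ ∈ Submodule.span ℂ (𝒩 ∪ {toC N})) →
    ∀ Φ : Fin k → Matrix (Fin n) (Fin n) ℂ, (∀ j, HodgeOperator (F lev H N (α j) (l j) C) (Φ j)) →
    (∀ j, GeneratedByNegative 𝔩 (Φ j)) →
    ∀ 𝔪 : Submodule ℚ (Matrix (Fin n × Fin k) (Fin n × Fin k) ℚ), IsLie 𝔪 →
    Matrix.blockDiagonal Φ ∈ cplx 𝔪 →
    ∀ X : Fin k → Matrix (Fin n) (Fin n) ℚ, (∀ j, X j ∈ 𝔩) → Matrix.blockDiagonal X ∈ 𝔪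

/-- `V p = V^{p, w-p}` are the parts of a Hodge structure of weight `w` on `ℚ^n` with the Hodge filtration
`F`, and the spaces `V p`, `V r` with `p + r ≠ w` are orthogonal with respect to the form `P`. -/
structure IsHodgeStructure {n : ℕ} (w : ℤ) (P : Matrix (Fin n) (Fin n) ℚ)
    (F V : ℤ → Submodule ℂ (Fin n → ℂ)) : Prop where
  fil : ∀ p, F p = ⨆ r : {r : ℤ // p ≤ r}, V r
  top : ⨆ r, V r = ⊤
  conj : ∀ p, ∀ v ∈ V p, (fun i => star (v i)) ∈ V (w - p)
  orth : ∀ p r, p + r ≠ w → ∀ v ∈ V p, ∀ v' ∈ V r,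
    dotProduct v (Matrix.mulVec (toC P) v') = 0

/-- The fibres at the points `x = 1 / α_j` of a pure polarised variation of weight `w` with the form `P`
are jointly Hodge generic: for all logarithms and all polarised Hodge structures `V_j` of weight `w` on
`ℚ^n` with the Hodge filtrations of the fibres (for even `w` with at least three nonzero Hodge numbers, or
two which are not symmetric to each other), every rational Lie algebra of matrices of size `n k` whose
complexification contains the operator `(Φ_1, …, Φ_k)`, where `Φ_j` is the multiplication by `p` on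
`V_j^{p, w-p}`, contains all `k`-tuples of infinitesimal isometries of the form `P`. -/
def PureGeneric {n k : ℕ} (lev : Fin n → ℤ) (H : Matrix (Fin n) (Fin n) (PowerSeries ℚ))
    (N : Matrix (Fin n) (Fin n) ℚ) (w : ℤ) (P : Matrix (Fin n) (Fin n) ℚ) (α : Fin k → ℂ)
    (C : Matrix (Fin n) (Fin n) ℂ) : Prop :=
  ∀ l : Fin k → ℂ, (∀ j, Complex.exp (l j) = α j) →
    ∀ V : Fin k → ℤ → Submodule ℂ (Fin n → ℂ),
    (∀ j, IsHodgeStructure w P (F lev H N (α j) (l j) C) (V j)) →
    (Odd w ∨ ∀ j, ∃ p q : ℤ, V j p ≠ ⊥ ∧ V j q ≠ ⊥ ∧ q ≠ p ∧ q ≠ w - p) →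
    ∀ Φ : Fin k → Matrix (Fin n) (Fin n) ℂ,
    (∀ j p, ∀ v ∈ V j p, Matrix.vecMul v (Φ j) = (p : ℂ) • v) →
    ∀ 𝔪 : Submodule ℚ (Matrix (Fin n × Fin k) (Fin n × Fin k) ℚ), IsLie 𝔪 →
    Matrix.blockDiagonal Φ ∈ cplx 𝔪 →
    ∀ X : Fin k → Matrix (Fin n) (Fin n) ℚ, (∀ j, X j * P + P * (X j).transpose = 0) →
    Matrix.blockDiagonal X ∈ 𝔪

/-- `ξ` is a root of a nonzero integral polynomial of degree at most `g` with coefficients of size at
most `|ξ|^A` -/
def Height (g A : ℕ) (ξ : ℂ) : Prop :=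
  ∃ p : Polynomial ℤ, p ≠ 0 ∧ p.natDegree ≤ g ∧ (∀ j, |(p.coeff j : ℝ)| ≤ ‖ξ‖ ^ A) ∧
    Polynomial.aeval ξ p = 0

/-- `ξ` is an algebraic integer of degree at most `g` all of whose conjugates have absolute value at
most `T` -/
def House (g T : ℕ) (ξ : ℂ) : Prop :=
  IsIntegral ℤ ξ ∧ (minpoly ℚ ξ).natDegree ≤ g ∧ ∀ z : ℂ, Polynomial.aeval z (minpoly ℚ ξ) = 0 → ‖z‖ ≤ T

theorem iter_eq {r : ℕ} (T : Polynomial ℤ) (A : Fin r → Fin r → Polynomial ℤ) (s : ℕ) :
    iter T A s = Pool.Agent.Y120.GH.itm T A s := by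
  induction s with
  | zero => rfl
  | succ s ih =>
    funext i j
    rw [iter, Pool.Agent.Y120.GH.itm, ih]

theorem qu_eq {r : ℕ} {T : Polynomial ℤ} {A : Fin r → Fin r → Polynomial ℤ} (h : QuasiUnipotent T A) :
    Pool.Agent.Y120.GH.QU0 T A := by
  obtain ⟨e, M, K, Φ, he, hdet, hc, heq⟩ := h
  have he0 : e ≠ 0 := by omega
  refine ⟨e, he0, M, K, Φ, hc, fun i j n => ?_, hdet⟩
  have h1 := heq i j n
  simp only [atPow] at h1
  rw [Pool.Agent.Y120.GH.expand_poly he0]
  simp only [Pool.Agent.Y120.GH.expand_poly he0]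
  exact h1

theorem gfam_eq {r : ℕ} {T : Polynomial ℤ} {A : Fin r → Fin r → Polynomial ℤ}
    {h : Fin r → PowerSeries ℚ} (hG : GFamily T A h) : Pool.Agent.Y916.Af.GFam T A h where
  hT := hG.T_ne
  hode := hG.ode
  hsize := hG.size
  hden := hG.den
  hgal := by
    obtain ⟨C, hC⟩ := hG.galochkin
    refine ⟨C, fun m => ?_⟩
    obtain ⟨d, h1, h2, h3⟩ := hC m
    refine ⟨d, h1, h2, fun s hs i' j' => ?_⟩
    rw [← iter_eq]
    exact h3 s hs i' j'
  hqu := qu_eq hG.regular

/-- the points near the origin where the relations are generic are jointly Hodge generic -/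
theorem key {n k : ℕ} {lev : Fin n → ℤ} {H : Matrix (Fin n) (Fin n) (PowerSeries ℚ)}
    {N : Matrix (Fin n) (Fin n) ℚ} {𝒩 : Set (Matrix (Fin n) (Fin n) ℂ)} {ρ ρ' : ℝ}
    (hρ : ρ' ≤ ρ) (hdet : ∀ z : ℂ, z ≠ 0 → ‖z‖ < ρ' → (Pool.Agent.T2h17.CM.Hz H z).det ≠ 0) {d : ℕ}
    (hd : ∀ (C : Matrix (Fin n) (Fin n) ℂ) (h : Fin k → Matrix (Fin n) (Fin n) ℂ) (l : Fin k → ℂ),
      C.det ≠ 0 → (∀ j, (h j).det ≠ 0) → Pool.Agent.T2h17.HW.Gen 𝒩 d C h l →
      Pool.Agent.T2h17.HW.Concl N 𝒩 lev C h l)
    {C : Matrix (Fin n) (Fin n) ℂ} (hC : C.det ≠ 0) {α : Fin k → ℂ}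
    (hα : ∀ j, ‖1 / α j‖ < ρ' ∧ α j ≠ 0)
    (hG : ∀ l : Fin k → ℂ, (∀ j, Complex.exp (l j) = α j) →
      Pool.Agent.T2h17.HW.Gen 𝒩 d C (fun j => Pool.Agent.T2h17.CM.Hz H (1 / α j)) l) :
    JointlyGeneric lev H N 𝒩 ρ α C := by
  refine ⟨fun j => ⟨(hα j).1.trans_le hρ, (hα j).2⟩, ?_⟩
  intro l hl 𝔩 h𝔩 Φ hΦ hgen 𝔪 hbr hmem X hX
  exact Pool.Agent.T2h17.HW.joint_of_concl
    (hd C _ l hC (fun j => hdet _ (one_div_ne_zero (hα j).2) (hα j).1) (hG l hl)) h𝔩 hΦ hgen hbr hmem X hX

/-- the pure polarised case -/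
theorem pure {n k : ℕ} {lev : Fin n → ℤ} {H : Matrix (Fin n) (Fin n) (PowerSeries ℚ)}
    {N : Matrix (Fin n) (Fin n) ℚ} {𝒩 : Set (Matrix (Fin n) (Fin n) ℂ)} {ρ : ℝ} {α : Fin k → ℂ}
    {C : Matrix (Fin n) (Fin n) ℂ} (hC : C.det ≠ 0) (hgen : JointlyGeneric lev H N 𝒩 ρ α C)
    {S : Matrix (Fin n) (Fin n) ℂ}
    (hS : ∀ Z : Matrix (Fin n) (Fin n) ℂ, Z * S + S * Z.transpose = 0 →
      Z ∈ Submodule.span ℂ (𝒩 ∪ {toC N})) {w : ℤ} {P : Matrix (Fin n) (Fin n) ℚ}
    (hP : P.transpose = ((-1 : ℚ) ^ w.natAbs) • P) (hPd : P.det ≠ 0) {κ : ℂ} (hκ : κ ≠ 0)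
    (hCP : C * toC P * C.transpose = κ • S) : PureGeneric lev H N w P α C := by
  intro l hl V hV hw Φ hΦ 𝔪 hbr hmem X hX
  have hu : IsUnit C.det := isUnit_iff_ne_zero.2 hC
  refine hgen.2 l hl (Pool.Agent.T2h17.HW.Isl P) ?_ Φ ?_ ?_ 𝔪 hbr hmem X hX
  · intro X (hX : X * P + P * X.transpose = 0)
    refine hS _ ?_
    have h1 : toC X * toC P + toC P * (toC X).transpose = 0 := by
      have h2 : toC X * toC P + toC P * (toC X).transpose = toC (X * P + P * X.transpose) := by
        ext i j
        simp [toC, Matrix.mul_apply]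
      rw [h2, hX]
      ext i j
      simp [toC]
    have h3 : S = κ⁻¹ • (C * toC P * C.transpose) := by
      rw [hCP, smul_smul, inv_mul_cancel₀ hκ, one_smul]
    have h4 : C⁻¹ * C = 1 := Matrix.nonsing_inv_mul _ hu
    have h5 : C.transpose * (C⁻¹).transpose = 1 := by
      rw [← Matrix.transpose_mul, h4, Matrix.transpose_one]
    rw [h3, Matrix.mul_smul, Matrix.smul_mul, ← smul_add, Matrix.transpose_mul, Matrix.transpose_mul]
    have h6 : C * toC X * C⁻¹ * (C * toC P * C.transpose) = C * (toC X * toC P) * C.transpose := by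
      calc C * toC X * C⁻¹ * (C * toC P * C.transpose) =
          C * toC X * (C⁻¹ * C) * toC P * C.transpose := by simp only [Matrix.mul_assoc]
        _ = _ := by rw [h4, Matrix.mul_one]; simp only [Matrix.mul_assoc]
    have h7 : C * toC P * C.transpose * ((C⁻¹).transpose * ((toC X).transpose * C.transpose)) =
        C * (toC P * (toC X).transpose) * C.transpose := by
      calc C * toC P * C.transpose * ((C⁻¹).transpose * ((toC X).transpose * C.transpose)) =
          C * toC P * (C.transpose * (C⁻¹).transpose) * (toC X).transpose * C.transpose := by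
            simp only [Matrix.mul_assoc]
        _ = _ := by rw [h5, Matrix.mul_one]; simp only [Matrix.mul_assoc]
    rw [h6, h7, ← Matrix.add_mul, ← Matrix.mul_add, h1, Matrix.mul_zero, Matrix.zero_mul, smul_zero]
  · intro j p v hv
    rw [(hV j).fil] at hv ⊢
    induction hv using Submodule.iSup_induction' with
    | mem r v hv =>
      rw [hΦ j r v hv, ← sub_smul]
      rcases eq_or_ne (r : ℤ) p with h | h
      · rw [h, sub_self, zero_smul]
        exact Submodule.zero_mem _
      · refine Submodule.smul_mem _ _ ?_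
        have h1 := r.2
        exact (le_iSup (fun r : {r : ℤ // p + 1 ≤ r} => V j r)
          ⟨(r : ℤ), lt_of_le_of_ne h1 (Ne.symm h)⟩) hv
    | zero =>
      rw [Matrix.zero_vecMul, smul_zero, sub_zero]
      exact Submodule.zero_mem _
    | add v v' _ _ h1 h2 =>
      rw [Matrix.add_vecMul, smul_add, add_sub_add_comm]
      exact Submodule.add_mem _ h1 h2
  · intro j 𝔞 h𝔞 hneg X hX
    have hPd' : (Pool.Agent.T2h17.HW.tc P).det ≠ 0 := by
      have h1 : (Pool.Agent.T2h17.HW.tc P).det = ((P.det : ℚ) : ℂ) := ((Rat.castHom ℂ).map_det P).symm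
      rw [h1]
      exact_mod_cast hPd
    refine Pool.Agent.T2h17.HW.gen_neg (w := w) (ε := (-1) ^ w.natAbs) ?_ hPd' (V j) (hV j).top
      (hV j).conj ?_ (hΦ j) ?_ h𝔞 hneg hX
    · have h1 : (Pool.Agent.T2h17.HW.tc P).transpose = Pool.Agent.T2h17.HW.tc P.transpose := rfl
      rw [h1, hP]
      ext a b
      simp [Pool.Agent.T2h17.HW.tc]
    · intro p r hpr v hv v' hv'
      rw [Pool.Agent.T2h17.HW.pr_eq]
      exact (hV j).orth p r hpr v hv v' hv'
    · rcases Int.even_or_odd w with he | ho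
      · right
        refine ⟨Even.neg_one_pow (Int.natAbs_even.2 he), ?_⟩
        rcases hw with h | h
        · exact absurd he (Int.not_even_iff_odd.2 h)
        · exact h j
      · left
        refine ⟨Odd.neg_one_pow (Int.natAbs_odd.2 ho), fun p hp => ?_⟩
        rw [← hp] at ho
        exact (Int.not_even_iff_odd.2 ho) (even_two_mul p)

/-- Let `lev` be any levels, let `H` be an `n × n` matrix of G-functions with rational coefficients and
let `N` be the logarithm of the local monodromy and `𝒩` the directions of the one-parameter subgroups of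
the monodromy group. Let `ρ > 0`.
(1) For all sufficiently large `G` and all `k`, `g`, `A₀` there is `E` such that for all `W`, all algebraic
numbers `ξ` of degree `≤ g` and height `≤ |ξ|^A₀` with `(W + 2)^E ≤ |ξ|` and all invertible `C` there are
at most `n ^ 2 + 2` exceptions `u` in `{1, …, W}` such that any `k` different points `1 / (ξ - G u)`,
`1 ≤ u ≤ W`, none of which is an exception, are jointly Hodge generic.
(2) For all `k` and `g ≥ 1` there are `c > 0` and `K` such that for all invertible `C` and all `T ≥ 1` at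
most `K T^(-c) M^k` of the `k`-tuples of the `M` algebraic integers of degree `≤ g` with all conjugates of
absolute value `≤ T` are not jointly Hodge generic.
(3) If the Lie algebra of the monodromy group contains all infinitesimal isometries of a form `S`, and `P`
is a rational form, `(-1)^w`-symmetric and proportional to `S` in the rational structure `C`, then any
points which are jointly Hodge generic in the sense of (1) and (2) are jointly Hodge generic in the sense
of pure polarised Hodge structures of weight `w`. -/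
theorem result {n : ℕ} (lev : Fin n → ℤ) (T : Polynomial ℤ)
    (A : Fin (n * n) → Fin (n * n) → Polynomial ℤ) (H : Matrix (Fin n) (Fin n) (PowerSeries ℚ))
    (hG : GFamily T A (entries H)) (N : Matrix (Fin n) (Fin n) ℚ)
    (𝒩 : Set (Matrix (Fin n) (Fin n) ℂ)) (hM : Monodromy H N 𝒩) (ρ : ℝ) (hρ : 0 < ρ) :
    (∃ G0 : ℕ, ∀ G : ℕ, G0 ≤ G → ∀ k g A₀ : ℕ, ∃ E : ℕ, ∀ (W : ℕ) (ξ : ℂ),
      ((W : ℝ) + 2) ^ E ≤ ‖ξ‖ → Height g A₀ ξ →
      ∀ C : Matrix (Fin n) (Fin n) ℂ, C.det ≠ 0 → ∃ S : Finset ℕ, S.card ≤ n ^ 2 + 2 ∧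
      ∀ u : Fin k → ℕ, Function.Injective u → (∀ j, 1 ≤ u j ∧ u j ≤ W ∧ u j ∉ S) →
      JointlyGeneric lev H N 𝒩 ρ (fun j => ξ - ((G * u j : ℕ) : ℂ)) C) ∧
    (∀ k g : ℕ, 1 ≤ g → ∃ c K : ℝ, 0 < c ∧ ∀ C : Matrix (Fin n) (Fin n) ℂ, C.det ≠ 0 →
      ∀ T : ℕ, 1 ≤ T →
      {α : Fin k → ℂ | (∀ i, House g T (α i)) ∧ ¬ JointlyGeneric lev H N 𝒩 ρ α C}.Finite ∧
      ({α : Fin k → ℂ | (∀ i, House g T (α i)) ∧ ¬ JointlyGeneric lev H N 𝒩 ρ α C}.ncard : ℝ) ≤
        K * (T : ℝ) ^ (-c) * ({ξ : ℂ | House g T ξ}.ncard : ℝ) ^ k) ∧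
    (∀ S : Matrix (Fin n) (Fin n) ℂ,
      (∀ Z : Matrix (Fin n) (Fin n) ℂ, Z * S + S * Z.transpose = 0 →
        Z ∈ Submodule.span ℂ (𝒩 ∪ {toC N})) →
      ∀ (k : ℕ) (α : Fin k → ℂ) (C : Matrix (Fin n) (Fin n) ℂ) (w : ℤ) (P : Matrix (Fin n) (Fin n) ℚ)
      (κ : ℂ), C.det ≠ 0 → JointlyGeneric lev H N 𝒩 ρ α C →
      P.transpose = ((-1 : ℚ) ^ w.natAbs) • P → P.det ≠ 0 → κ ≠ 0 →
      C * toC P * C.transpose = κ • S → PureGeneric lev H N w P α C) := by
  obtain ⟨ρ₁, hρ₁, hinv⟩ := hM.inv
  have hsz : ∃ C : ℝ, ∀ i j m, |((coeff m (H i j) : ℚ) : ℝ)| ≤ C ^ (m + 1) := by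
    obtain ⟨C, hC⟩ := hG.size
    refine ⟨C, fun i j m => ?_⟩
    have h1 := hC (finProdFinEquiv (i, j)) m
    unfold entries at h1
    rwa [Equiv.symm_apply_apply] at h1
  obtain ⟨ρ₂, hρ₂, hdet⟩ := Pool.Agent.T2h17.HW.det_near hsz hM.det
  set ρ' : ℝ := min ρ (min ρ₁ ρ₂) with hρ'
  have hρ'0 : 0 < ρ' := lt_min hρ (lt_min hρ₁ hρ₂)
  have hρ'1 : ρ' ≤ ρ := min_le_left _ _
  have hρ'2 : ρ' ≤ ρ₁ := (min_le_right _ _).trans (min_le_left _ _)
  have hρ'3 : ρ' ≤ ρ₂ := (min_le_right _ _).trans (min_le_right _ _)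
  have hinv' : Pool.Agent.T2h17.HW.InvR H 𝒩 ρ' := fun R hR z hz g hg =>
    hinv R hR z (hz.trans_le hρ'2) g hg
  have hnr := Pool.Agent.Y916.Af.nrh_of_gfam (gfam_eq hG)
  have hszh : Pool.Agent.Y916.Af.SZ (Pool.Agent.T2h17.CM.hh H) := hG.size
  refine ⟨?_, ?_, ?_⟩
  · obtain ⟨G0, -, h1⟩ := Pool.Agent.T2h17.HW.win_gen hnr hszh hρ'0 hinv'
    refine ⟨G0, fun G hGG k g A₀ => ?_⟩
    obtain ⟨d, hd⟩ := Pool.Agent.T2h17.HW.core k hM.nil hM.dir hM.normal lev
    obtain ⟨E, hE⟩ := h1 G hGG k g A₀ d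
    refine ⟨E, fun W ξ hξ hht C hC => ?_⟩
    obtain ⟨hnear, h2⟩ := hE W ξ hξ
    obtain ⟨S, hS, h3⟩ := h2 hht C
    refine ⟨S, by rw [pow_two]; exact hS, fun u hu hub => ?_⟩
    exact key hρ'1 (fun z hz hz' => hdet z hz (hz'.trans_le hρ'3)) hd hC
      (fun j => hnear (u j) (hub j).2.1) (fun l hl => h3 u hu hub l hl)
  · intro k g hg
    obtain ⟨d, hd⟩ := Pool.Agent.T2h17.HW.core k hM.nil hM.dir hM.normal lev
    obtain ⟨c, hc, K, -, h1⟩ := Pool.Agent.T2h17.HW.tup_gen hnr hszh hρ'0 hinv' k g d hg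
    refine ⟨c, K, hc, fun C hC T hT => ?_⟩
    obtain ⟨h2, h3⟩ := h1 C T hT
    have hsub : {α : Fin k → ℂ | (∀ i, House g T (α i)) ∧ ¬ JointlyGeneric lev H N 𝒩 ρ α C} ⊆
        {α : Fin k → ℂ | (∀ i, Pool.Agent.Y916.Sl.SInt g T (α i)) ∧
          ¬ Pool.Agent.T2h17.HW.GoodT H 𝒩 ρ' d C α} := by
      rintro α ⟨hα, hbad⟩
      refine ⟨hα, fun hgood => hbad ?_⟩
      exact key hρ'1 (fun z hz hz' => hdet z hz (hz'.trans_le hρ'3)) hd hC hgood.1 hgood.2
    refine ⟨h2.subset hsub, le_trans ?_ h3⟩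
    exact_mod_cast Set.ncard_le_ncard hsub h2
  · intro S hS k α C w P κ hC hgen hP hPd hκ hCP
    exact pure hC hgen hS hP hPd hκ hCP

end Pool.Agent.Results.MP_eeb1a4_ag.ArbitraryVariations
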