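import Mathlib
import Pool.Agent.T2h17.GH.All
import Pool.Agent.T2h17.GH.Pl

/-!
# Special points of arbitrary variations: polynomial height bounds in all degrees

Let `𝒱` be an arbitrary variation of mixed Hodge structure of rank `n` on an open part of the projective
line which comes from a family of varieties over `ℚ(x)`, with unipotent or trivial local monodromy at
`x = 0`; the weights, the Hodge numbers, the monodromy group and the number of the singularities are
arbitrary. Its period matrix is `H(x) x^N C` with a matrix `H` of G-functions with rational coefficients, a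
rational nilpotent matrix `N` and an invertible matrix `C`, the periods of the limiting mixed Hodge
structure (or of the fibre at `0`, if `N = 0`).

Let `x` be a special point, `𝔪` the Lie algebra of the Mumford–Tate group of the fibre and `𝔤` the Lie
algebra of the monodromy group. The codimension of the point is the codimension at `x` of the
Mumford–Tate subdomain of `𝔪` in the orbit `D` of the monodromy group, that is
`dim 𝔤 - dim (𝔤 ∩ (𝔪 + F⁰))`, where `F⁰` are the endomorphisms which preserve the Hodge filtration. The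
point is atypical if its codimension is greater than one, and the Zilber–Pink conjecture says that there
are only finitely many of them. The codimension of a point with complex multiplication is `dim D`.

We prove that the logarithmic distance to `x = 0` of the special points of codimension greater than
`τ + 1` is bounded by a polynomial in the degree, where `τ` is the transcendence degree of the field which
is generated by the limiting periods `C` (greater than `τ`, if `N = 0`): if `x = 1 / ξ` is such a point,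
`ξ` is algebraic of degree `≤ D` and of height `≤ |ξ|^D`, then `log |ξ| ≤ (D + 2)^c`, for all `D` at once.
In other words, these points have large Galois orbits: the degree of `ξ` is at least a power of
`log |ξ|`. The same is true for the special points of codimension at least the dimension of the Lie
algebra of the similitudes of the polarisation which normalise `N`, uniformly in all polarised rational
structures in which `N` is rational up to `2 π i`. It follows that at most `2^((D+2)^c)` algebraic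
integers `ξ` of degree `≤ D` have the property that all the points `1 / ξ'`, `|ξ'| > R`, `ξ'` conjugate to
`ξ`, are such special points. These are consequences of a transversality theorem: the Lie algebra of the
monodromy group is contained in the sum of `𝔪`, of `F⁰` and of the tangent space of the variety of the
rational structures at `C`, for all points with `log |ξ| ≥ (D + 2)^c`.

Proof. Relations of bounded degree over a number field of degree `≤ (D + 2)^c` between the values of the
G-functions at a point of degree `≤ D` with `log |ξ| ≥ (D + 2)^t` hold on the orbits of the group: an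
ultraproduct of counterexamples (with degrees which may tend to infinity) gives a point with coordinates
in the ultrapower of `ℂ` which are algebraically independent over the (algebraically closed in the needed
sense) union of the ultraproducts of number fields of degree polynomial in `D`, by the theorem of
Siegel–Shidlovskii–Galochkin–Chudnovsky–André with exponents which are polynomial in the degree of the
field. The logarithm can be replaced by a transcendental number in the derivation argument.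
-/

set_option autoImplicit false

open PowerSeries

namespace Pool.Agent.Results.MP_eeb1a4_ag.GrowingDegree

/-- an integer polynomial as a power series with rational coefficients -/
noncomputable def toQ (P : Polynomial ℤ) : PowerSeries ℚ :=
  ((P.map (Int.castRingHom ℚ) : Polynomial ℚ) : PowerSeries ℚ)

/-- the matrices `G_s` over `ℤ[x]` with `T^s y^(s) = G_s y` for all solutions `y` of `T y' = A y` -/
noncomputable def iter {r : ℕ} (T : Polynomial ℤ) (A : Fin r → Fin r → Polynomial ℤ) :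
    ℕ → Fin r → Fin r → Polynomial ℤ
  | 0 => fun i j => if i = j then 1 else 0
  | s + 1 => fun i j => T * Polynomial.derivative (iter T A s i j) + ∑ l, iter T A s i l * A l j -
      (s : Polynomial ℤ) * (Polynomial.derivative T * iter T A s i j)

/-- `h_1, ..., h_r` are G-functions with rational coefficients which solve the differential system
`T y' = A y`, with the conditions of Siegel and Galochkin. -/
structure GFamily {r : ℕ} (T : Polynomial ℤ) (A : Fin r → Fin r → Polynomial ℤ)
    (h : Fin r → PowerSeries ℚ) : Prop where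
  /-- the denominator is not zero -/
  T_ne : T ≠ 0
  /-- the differential equations -/
  ode : ∀ i, toQ T * PowerSeries.derivative ℚ (h i) = ∑ j, toQ (A i j) * h j
  /-- the coefficients have geometric growth -/
  size : ∃ C : ℝ, ∀ i m, |((coeff m (h i) : ℚ) : ℝ)| ≤ C ^ (m + 1)
  /-- the common denominators of the coefficients have geometric growth -/
  den : ∃ C : ℝ, ∀ m : ℕ, ∃ d : ℕ, 0 < d ∧ (d : ℝ) ≤ C ^ (m + 1) ∧
    ∀ i, ∀ j ≤ m, ∃ a : ℤ, (d : ℚ) * coeff j (h i) = a
  /-- Galochkin's condition: the common denominators of the matrices `G_s / s!` have geometric growth -/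
  galochkin : ∃ C : ℝ, ∀ m : ℕ, ∃ d : ℕ, 0 < d ∧ (d : ℝ) ≤ C ^ (m + 1) ∧ ∀ s ≤ m, ∀ i j,
    ∃ H : Polynomial ℤ, (d : Polynomial ℤ) * iter T A s i j = (s.factorial : Polynomial ℤ) * H

/-- the entries of a matrix -/
def entries {n : ℕ} (H : Matrix (Fin n) (Fin n) (PowerSeries ℚ)) : Fin (n * n) → PowerSeries ℚ :=
  fun a => H (finProdFinEquiv.symm a).1 (finProdFinEquiv.symm a).2

/-- rational matrices as complex matrices -/
def toC {ι : Type} (M : Matrix ι ι ℚ) : Matrix ι ι ℂ := M.map fun x : ℚ => (x : ℂ)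

/-- the value of `H` at `z` -/
noncomputable def val {n : ℕ} (H : Matrix (Fin n) (Fin n) (PowerSeries ℚ)) (z : ℂ) :
    Matrix (Fin n) (Fin n) ℂ :=
  Matrix.of fun i j => ∑' k : ℕ, ((coeff k (H i j) : ℚ) : ℂ) * z ^ k

/-- the exponential `exp (s X)` of a nilpotent matrix -/
noncomputable def expN {n : ℕ} (X : Matrix (Fin n) (Fin n) ℂ) (s : ℂ) : Matrix (Fin n) (Fin n) ℂ :=
  ∑ a ∈ Finset.range n, (s ^ a / (a.factorial : ℂ)) • X ^ a

/-- The monodromy of the variation with the period matrix `H(x) x^N`: the matrices `X ∈ 𝒩` are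
nilpotent, all polynomial relations `R(x, H(x)) = 0` over `ℚ[x]` between the entries of `H` hold near
`x = 0` also for the matrices `H(x) g`, where `g` is a product of matrices `exp (s X)`, `X ∈ 𝒩`, and the
span of `𝒩` is normalised by the local monodromy `exp (2 π i N)` (it is the Lie algebra of the subgroup of
the monodromy group which fixes `log x`). -/
structure Monodromy {n : ℕ} (H : Matrix (Fin n) (Fin n) (PowerSeries ℚ))
    (N : Matrix (Fin n) (Fin n) ℚ) (𝒩 : Set (Matrix (Fin n) (Fin n) ℂ)) : Prop where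
  det : H.det ≠ 0
  nil : N ^ n = 0
  dir : ∀ X ∈ 𝒩, X ^ n = 0
  normal : ∀ X ∈ 𝒩, ∀ s : ℂ, expN (toC N) s * X * expN (toC N) (-s) ∈ Submodule.span ℂ 𝒩
  inv : ∃ ρ : ℝ, 0 < ρ ∧ ∀ R : MvPolynomial (Fin n × Fin n) (Polynomial ℚ),
    MvPolynomial.aeval (fun a : Fin n × Fin n => H a.1 a.2) R = 0 → ∀ z : ℂ, ‖z‖ < ρ →
      ∀ g ∈ Submonoid.closure {g | ∃ X ∈ 𝒩, ∃ s : ℂ, g = expN X s},
      MvPolynomial.eval₂ (Polynomial.aeval z : Polynomial ℚ →ₐ[ℚ] ℂ).toRingHom
        (fun a => (val H z * g) a.1 a.2) R = 0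

/-- The period matrix `H(x) x^N = H(x) exp (N log x)` at `x = 1 / ξ`, with the value `-l` of `log x`,
where `exp l = ξ`. -/
noncomputable def per {n : ℕ} (H : Matrix (Fin n) (Fin n) (PowerSeries ℚ)) (N : Matrix (Fin n) (Fin n) ℚ)
    (ξ l : ℂ) : Matrix (Fin n) (Fin n) ℂ := val H (1 / ξ) * expN (toC N) (-l)

/-- The step `F^p` of the Hodge filtration at the point `x = 1 / ξ` in the rational coordinates: the
span of the rows with a level `≥ p` of the period matrix; the levels `lev` can be any integers. -/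
noncomputable def F {n : ℕ} (lev : Fin n → ℤ) (H : Matrix (Fin n) (Fin n) (PowerSeries ℚ))
    (N : Matrix (Fin n) (Fin n) ℚ) (ξ l : ℂ) (C : Matrix (Fin n) (Fin n) ℂ) (p : ℤ) :
    Submodule ℂ (Fin n → ℂ) :=
  Submodule.span ℂ {v | ∃ i : Fin n, p ≤ lev i ∧ v = (per H N ξ l * C) i}

/-- a Lie algebra of rational matrices -/
def IsLie {ι : Type} [Fintype ι] (𝔪 : Submodule ℚ (Matrix ι ι ℚ)) : Prop :=
  ∀ X ∈ 𝔪, ∀ Y ∈ 𝔪, X * Y - Y * X ∈ 𝔪

/-- the complexification of a space of rational matrices -/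
def cplx {ι : Type} (𝔪 : Submodule ℚ (Matrix ι ι ℚ)) : Submodule ℂ (Matrix ι ι ℂ) :=
  Submodule.span ℂ (toC '' (𝔪 : Set (Matrix ι ι ℚ)))

/-- A Hodge operator acts (from the right) on `F^p / F^(p+1)` as the multiplication by `p`. For a Hodge
structure, or a mixed Hodge structure with its Deligne splitting, the operator which is the
multiplication by `p` on the parts of type `(p, q)` is the derivative of a cocharacter of the
Mumford–Tate group. -/
def HodgeOperator {n : ℕ} (F : ℤ → Submodule ℂ (Fin n → ℂ)) (Φ : Matrix (Fin n) (Fin n) ℂ) : Prop :=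
  ∀ p, ∀ v ∈ F p, Matrix.vecMul v Φ - (p : ℂ) • v ∈ F (p + 1)

/-- the operators which preserve the filtration `F` -/
def Stab {n : ℕ} (F : ℤ → Submodule ℂ (Fin n → ℂ)) : Submodule ℂ (Matrix (Fin n) (Fin n) ℂ) where
  carrier := {B | ∀ p, ∀ v ∈ F p, Matrix.vecMul v B ∈ F p}
  add_mem' := fun h h' p v hv => by
    rw [Matrix.vecMul_add]
    exact (F p).add_mem (h p v hv) (h' p v hv)
  zero_mem' := fun p v _ => by
    rw [Matrix.vecMul_zero]
    exact (F p).zero_mem
  smul_mem' := fun c B h p v hv => by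
    rw [Matrix.vecMul_smul]
    exact (F p).smul_mem c (h p v hv)

/-- the conjugation `Y ↦ C⁻¹ Y C` from the flat coordinates to the rational coordinates -/
noncomputable def conjBy {n : ℕ} (C : Matrix (Fin n) (Fin n) ℂ) :
    Matrix (Fin n) (Fin n) ℂ →ₗ[ℂ] Matrix (Fin n) (Fin n) ℂ where
  toFun := fun Y => C⁻¹ * Y * C
  map_add' := fun Y Y' => by rw [Matrix.mul_add, Matrix.add_mul]
  map_smul' := fun c Y => by
    rw [Matrix.mul_smul, Matrix.smul_mul]
    rfl

/-- the codimension `dim 𝔤 - dim (𝔤 ∩ (𝔪 + F⁰))` of the orbit of the group with the Lie algebra `𝔪` in the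
orbit of the group with the Lie algebra `𝔤` at the filtration `F` -/
noncomputable def codim {n : ℕ} (𝔤 : Submodule ℂ (Matrix (Fin n) (Fin n) ℂ))
    (𝔪 : Submodule ℚ (Matrix (Fin n) (Fin n) ℚ)) (F : ℤ → Submodule ℂ (Fin n → ℂ)) : ℕ :=
  Module.finrank ℂ 𝔤 - Module.finrank ℂ (𝔤 ⊓ (cplx 𝔪 ⊔ Stab F) : Submodule ℂ _)

/-- The codimension of the fibre at the point `x = 1 / ξ` with the logarithm `l` of `ξ` is at most `ν`: for
every rational Lie algebra `𝔪` whose complexification contains a Hodge operator `Φ` of the fibre (for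
example the Lie algebra of the Mumford–Tate group) the codimension of `𝔪` in the Lie algebra of the
monodromy group, which is spanned by `N` and `𝒩`, is at most `ν`. -/
def CodimLe {n : ℕ} (lev : Fin n → ℤ) (H : Matrix (Fin n) (Fin n) (PowerSeries ℚ))
    (N : Matrix (Fin n) (Fin n) ℚ) (𝒩 : Set (Matrix (Fin n) (Fin n) ℂ)) (C : Matrix (Fin n) (Fin n) ℂ)
    (ξ l : ℂ) (ν : ℕ) : Prop :=
  ∀ (Φ : Matrix (Fin n) (Fin n) ℂ) (𝔪 : Submodule ℚ (Matrix (Fin n) (Fin n) ℚ)),
    HodgeOperator (F lev H N ξ l C) Φ → IsLie 𝔪 → Φ ∈ cplx 𝔪 →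
    codim ((Submodule.span ℂ (𝒩 ∪ {toC N})).map (conjBy C)) 𝔪 (F lev H N ξ l C) ≤ ν

/-- the matrices `Z` such that `Z C` is tangent at `C` to the variety of all rational equations of degree
at most `d` which hold for `C` -/
def Tangent {n : ℕ} (d : ℕ) (C : Matrix (Fin n) (Fin n) ℂ) :
    Submodule ℂ (Matrix (Fin n) (Fin n) ℂ) where
  carrier := {Z | ∀ f : MvPolynomial (Fin n × Fin n) ℚ, f.totalDegree ≤ d →
    MvPolynomial.aeval (fun a => C a.1 a.2) f = 0 →
    ∑ a, MvPolynomial.aeval (fun a => C a.1 a.2) (MvPolynomial.pderiv a f) * (Z * C) a.1 a.2 = 0}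
  add_mem' := fun hZ hZ' => (Pool.Agent.T2h17.TV.Tg d C).add_mem hZ hZ'
  zero_mem' := (Pool.Agent.T2h17.TV.Tg d C).zero_mem
  smul_mem' := fun c _ hZ => (Pool.Agent.T2h17.TV.Tg d C).smul_mem c hZ

/-- Transversality at the point `x = 1 / ξ` with the logarithm `l` of `ξ`: for every rational Lie algebra
`𝔪` whose complexification contains a Hodge operator `Φ` of the fibre and every `Y` in the Lie algebra of
the monodromy group, there is a `Z` in the sum of the tangent space at `C` and of the line of `N` such that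
`Y + Z`, in rational coordinates, is in `𝔪 + F⁰`. -/
def Transversal {n : ℕ} (d : ℕ) (lev : Fin n → ℤ) (H : Matrix (Fin n) (Fin n) (PowerSeries ℚ))
    (N : Matrix (Fin n) (Fin n) ℚ) (𝒩 : Set (Matrix (Fin n) (Fin n) ℂ)) (C : Matrix (Fin n) (Fin n) ℂ)
    (ξ l : ℂ) : Prop :=
  ∀ Φ : Matrix (Fin n) (Fin n) ℂ, HodgeOperator (F lev H N ξ l C) Φ →
    ∀ 𝔪 : Submodule ℚ (Matrix (Fin n) (Fin n) ℚ), IsLie 𝔪 → Φ ∈ cplx 𝔪 →
    ∀ Y ∈ Submodule.span ℂ (𝒩 ∪ {toC N}), ∃ Z ∈ Tangent d C ⊔ Submodule.span ℂ {toC N},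
      conjBy C (Y + Z) ∈ cplx 𝔪 ⊔ Stab (F lev H N ξ l C)

/-- the Lie algebra of the infinitesimal similitudes of the form `S` which normalise the line of `N` -/
def Similitudes {n : ℕ} (N S : Matrix (Fin n) (Fin n) ℂ) : Submodule ℂ (Matrix (Fin n) (Fin n) ℂ) where
  carrier := {Z | (∃ μ : ℂ, Z * N - N * Z = μ • N) ∧ ∃ η : ℂ, Z * S + S * Z.transpose = η • S}
  add_mem' := fun hZ hZ' => (Pool.Agent.T2h17.TV.Nrm N S).add_mem hZ hZ'
  zero_mem' := (Pool.Agent.T2h17.TV.Nrm N S).zero_mem
  smul_mem' := fun c _ hZ => (Pool.Agent.T2h17.TV.Nrm N S).smul_mem c hZ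

/-- The base change `C` from the flat basis to a rational basis is a polarised rational structure: the
logarithm `2 π i C⁻¹ N C` of the local monodromy is rational and the form with the matrix `S` in the flat
basis is proportional to a rational form. -/
structure RationalStructure {n : ℕ} (S N : Matrix (Fin n) (Fin n) ℚ) (C : Matrix (Fin n) (Fin n) ℂ) :
    Prop where
  det : C.det ≠ 0
  log : ∃ M : Matrix (Fin n) (Fin n) ℚ, C * toC M = (2 * (Real.pi : ℂ) * Complex.I) • (toC N * C)
  form : ∃ (P : Matrix (Fin n) (Fin n) ℚ) (κ : ℂ), κ ≠ 0 ∧ C * toC P * C.transpose = κ • toC S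

/-- the transcendence degree of the field which is generated by the entries of `C` is at most `τ` -/
def TrdegLe {n : ℕ} (C : Matrix (Fin n) (Fin n) ℂ) (τ : ℕ) : Prop :=
  Algebra.trdeg ℚ (IntermediateField.adjoin ℚ (Set.range fun a : Fin n × Fin n => C a.1 a.2)) ≤ τ

/-- `ξ` is a root of a nonzero integral polynomial of degree at most `g` with coefficients of size at
most `|ξ|^A` -/
def Height (g A : ℕ) (ξ : ℂ) : Prop :=
  ∃ p : Polynomial ℤ, p ≠ 0 ∧ p.natDegree ≤ g ∧ (∀ j, |(p.coeff j : ℝ)| ≤ ‖ξ‖ ^ A) ∧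
    Polynomial.aeval ξ p = 0

/-- The set of the roots of nonzero integral polynomials of degree `≤ D` with leading coefficient of
absolute value `≤ 2^D` all of whose roots `ξ'` with `|ξ'| > R` are in `Sp`. It contains the algebraic
integers of degree `≤ D` all of whose conjugates of absolute value greater than `R` are in `Sp`. -/
def Roots (Sp : Set ℂ) (R : ℝ) (D : ℕ) : Set ℂ :=
  {ξ : ℂ | ∃ p : Polynomial ℤ, p ≠ 0 ∧ p.natDegree ≤ D ∧ |p.leadingCoeff| ≤ 2 ^ D ∧
    Polynomial.aeval ξ p = 0 ∧ ∀ ξ' : ℂ, Polynomial.aeval ξ' p = 0 → R < ‖ξ'‖ → ξ' ∈ Sp}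

/-- Polynomial height bound for the set `Sp`: for every `R` there is a `c` such that for all `D`
(1) the elements `ξ` of `Sp` of degree `≤ D` and height `≤ |ξ|^D` satisfy `|ξ| < 2^((D+2)^c)`, and there
are at most `2^((D+2)^c)` such elements;
(2) the set `Roots Sp R D` has at most `2^((D+2)^c)` elements, of absolute value less than `2^((D+2)^c)`;
it contains all algebraic integers `ξ` of degree `≤ D` all of whose conjugates of absolute value greater
than `R` are in `Sp`. -/
def HeightBound (Sp : Set ℂ) : Prop := ∀ R : ℝ, ∃ c : ℕ, ∀ D : ℕ,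
  (∀ ξ ∈ Sp, Height D D ξ → ‖ξ‖ < 2 ^ ((D + 2) ^ c)) ∧
  {ξ : ℂ | ξ ∈ Sp ∧ Height D D ξ}.Finite ∧ {ξ : ℂ | ξ ∈ Sp ∧ Height D D ξ}.ncard ≤ 2 ^ ((D + 2) ^ c) ∧
  (∀ ξ ∈ Roots Sp R D, ‖ξ‖ < 2 ^ ((D + 2) ^ c)) ∧ (Roots Sp R D).Finite ∧
  (Roots Sp R D).ncard ≤ 2 ^ ((D + 2) ^ c) ∧
  ∀ ξ : ℂ, IsIntegral ℤ ξ → (minpoly ℚ ξ).natDegree ≤ D →
    (∀ ξ' : ℂ, Polynomial.aeval ξ' (minpoly ℚ ξ) = 0 → R < ‖ξ'‖ → ξ' ∈ Sp) → ξ ∈ Roots Sp R D

theorem iter_eq {r : ℕ} (T : Polynomial ℤ) (A : Fin r → Fin r → Polynomial ℤ) (s : ℕ) :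
    iter T A s = Pool.Agent.Y120.GH.itm T A s := by
  induction s with
  | zero => rfl
  | succ s ih =>
    funext i j
    rw [iter, Pool.Agent.Y120.GH.itm, ih]

/-- the transversality theorem -/
theorem transversal {n : ℕ} {lev : Fin n → ℤ} {T : Polynomial ℤ}
    {A : Fin (n * n) → Fin (n * n) → Polynomial ℤ} {H : Matrix (Fin n) (Fin n) (PowerSeries ℚ)}
    (hG : GFamily T A (entries H)) {N : Matrix (Fin n) (Fin n) ℚ}
    {𝒩 : Set (Matrix (Fin n) (Fin n) ℂ)} (hM : Monodromy H N 𝒩) (d : ℕ) :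
    ∃ t₀ : ℕ, ∀ (D : ℕ) (ξ : ℂ), (2 : ℝ) ^ ((D + 2) ^ t₀) ≤ ‖ξ‖ → Height D D ξ →
      ∀ (C : Matrix (Fin n) (Fin n) ℂ) (l : ℂ), C.det ≠ 0 →
      Pool.Agent.T2h17.GH.TrP N 𝒩 lev d C (Pool.Agent.T2h17.CM.Hz H (1 / ξ)) l := by
  obtain ⟨ρ, hρ, hinv⟩ := hM.inv
  have hsz : ∃ C : ℝ, ∀ i j m, |((coeff m (H i j) : ℚ) : ℝ)| ≤ C ^ (m + 1) := by
    obtain ⟨C, hC⟩ := hG.size
    refine ⟨C, fun i j m => ?_⟩
    have h1 := hC (finProdFinEquiv (i, j)) m
    unfold entries at h1
    rwa [Equiv.symm_apply_apply] at h1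
  obtain ⟨q, C, hgs⟩ := Pool.Agent.T2h17.GH.gsys_one hG.ode hG.size hG.den (by
    obtain ⟨C, hC⟩ := hG.galochkin
    refine ⟨C, fun m => ?_⟩
    obtain ⟨d, h1, h2, h3⟩ := hC m
    refine ⟨d, h1, h2, fun s hs i' j' => ?_⟩
    rw [← iter_eq]
    exact h3 s hs i' j')
  obtain ⟨t₀, ht₀⟩ := Pool.Agent.T2h17.GH.pt_trans Pool.Agent.T2h17.GH.t_low
    Pool.Agent.T2h17.GH.t_grow Pool.Agent.T2h17.GH.t_depf hG.T_ne hgs hsz hM.det hM.nil hM.dir hM.normal
    hρ (fun R hR z hz g hg => hinv R hR z hz g hg) lev d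
  exact ⟨t₀, fun D ξ hξ hht C l hC => Pool.Agent.T2h17.GH.trP (ht₀ D ξ hξ hht C l hC)⟩

/-- the bound for a fixed rational structure -/
theorem finrank_fixed {n : ℕ} {C : Matrix (Fin n) (Fin n) ℂ} (hC : C.det ≠ 0) {τ : ℕ}
    (hτ : TrdegLe C τ) (N : Matrix (Fin n) (Fin n) ℚ) : ∃ d : ℕ,
    Module.finrank ℂ (Pool.Agent.T2h17.TV.Tg d C ⊔ Submodule.span ℂ {toC N} : Submodule ℂ _) ≤
      τ + if N = 0 then 0 else 1 := by
  obtain ⟨d, hd⟩ := Pool.Agent.T2h17.TV.finrank_Tg hC
  refine ⟨d, ?_⟩
  have h1 : Module.finrank ℂ (Pool.Agent.T2h17.TV.Tg d C) ≤ τ := by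
    exact_mod_cast hd.trans hτ
  split_ifs with hN
  · subst hN
    have h2 : toC (0 : Matrix (Fin n) (Fin n) ℚ) = 0 := by
      ext i j
      simp [toC]
    rw [h2, Submodule.span_zero_singleton, sup_bot_eq]
    exact h1
  · refine (Submodule.finrank_add_le_finrank_add_finrank _ _).trans (Nat.add_le_add h1 ?_)
    refine (finrank_span_le_card _).trans ?_
    simp

/-- the similitudes -/
theorem le_sim {n : ℕ} {S N : Matrix (Fin n) (Fin n) ℚ} {C : Matrix (Fin n) (Fin n) ℂ}
    (hN : toC N * toC S + toC S * (toC N).transpose = 0) (hC : RationalStructure S N C) :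
    Pool.Agent.T2h17.TV.Tg 2 C ⊔ Submodule.span ℂ {toC N} ≤ Similitudes (toC N) (toC S) := by
  obtain ⟨hdet, ⟨M, hM⟩, P, κ, hκ, hP⟩ := hC
  refine sup_le ?_ ?_
  · intro Z hZ
    exact Pool.Agent.T2h17.TV.Tg_le_Nrm hdet Complex.two_pi_I_ne_zero hM hκ hP hZ
  · rw [Submodule.span_le, Set.singleton_subset_iff]
    exact ⟨⟨0, by rw [sub_self, zero_smul]⟩, 0, by rw [hN, zero_smul]⟩

theorem one_sim {n : ℕ} (N S : Matrix (Fin n) (Fin n) ℂ) :
    (1 : Matrix (Fin n) (Fin n) ℂ) ∈ Similitudes N S := by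
  refine ⟨⟨0, by rw [Matrix.one_mul, Matrix.mul_one, sub_self, zero_smul]⟩, 2, ?_⟩
  rw [Matrix.one_mul, Matrix.transpose_one, Matrix.mul_one, two_smul]

/-- counting -/
theorem height_bound {Sp : Set ℂ} (h : ∃ t₀ : ℕ, ∀ (D : ℕ) (ξ : ℂ), (2 : ℝ) ^ ((D + 2) ^ t₀) ≤ ‖ξ‖ →
    Height D D ξ → ξ ∉ Sp) : HeightBound Sp := fun R => Pool.Agent.T2h17.GH.cnt h R

/-- Let `lev` be any levels, let `H` be an `n × n` matrix of G-functions with rational coefficients, let
`N` be the logarithm of the local monodromy and `𝒩` the directions of the one-parameter subgroups of the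
monodromy group.
(1) For every `d` there is a `c` such that for all `D`, all algebraic `ξ` of degree `≤ D` and height
`≤ |ξ|^D` with `|ξ| ≥ 2^((D+2)^c)`, all logarithms `l` of `ξ` and all invertible matrices `C` transversality
holds at the point `x = 1 / ξ`.
(2) For every fixed `C` with transcendence degree at most `τ` the set of the `ξ` such that the codimension
of the fibre at `1 / ξ` is greater than `τ + 1` (greater than `τ`, if `N = 0`), for some logarithm, has a
polynomial height bound.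
(3) The set of the `ξ` such that the codimension of the fibre at `1 / ξ` is at least the dimension of the
Lie algebra of the similitudes which normalise `N`, for some logarithm and for some polarised rational
structure `C` (which may depend on `ξ`), has a polynomial height bound. -/
theorem result {n : ℕ} (lev : Fin n → ℤ) (T : Polynomial ℤ)
    (A : Fin (n * n) → Fin (n * n) → Polynomial ℤ) (H : Matrix (Fin n) (Fin n) (PowerSeries ℚ))
    (hG : GFamily T A (entries H)) (N : Matrix (Fin n) (Fin n) ℚ)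
    (𝒩 : Set (Matrix (Fin n) (Fin n) ℂ)) (hM : Monodromy H N 𝒩) :
    (∀ d : ℕ, ∃ c : ℕ, ∀ (D : ℕ) (ξ l : ℂ), (2 : ℝ) ^ ((D + 2) ^ c) ≤ ‖ξ‖ → Height D D ξ →
      Complex.exp l = ξ → ∀ C : Matrix (Fin n) (Fin n) ℂ, C.det ≠ 0 →
      Transversal d lev H N 𝒩 C ξ l) ∧
    (∀ (C : Matrix (Fin n) (Fin n) ℂ) (τ : ℕ), C.det ≠ 0 → TrdegLe C τ →
      HeightBound {ξ : ℂ | ∃ l : ℂ, Complex.exp l = ξ ∧
        ¬ CodimLe lev H N 𝒩 C ξ l (τ + if N = 0 then 0 else 1)}) ∧
    (1 ≤ n → ∀ S : Matrix (Fin n) (Fin n) ℚ, toC N * toC S + toC S * (toC N).transpose = 0 →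
      HeightBound {ξ : ℂ | ∃ l : ℂ, Complex.exp l = ξ ∧ ∃ C : Matrix (Fin n) (Fin n) ℂ,
        RationalStructure S N C ∧
        ¬ CodimLe lev H N 𝒩 C ξ l (Module.finrank ℂ (Similitudes (toC N) (toC S)) - 1)}) := by
  have key := fun d : ℕ => transversal (lev := lev) hG hM d
  refine ⟨fun d => ?_, fun C τ hC hτ => height_bound ?_, fun hn S hS => height_bound ?_⟩
  · obtain ⟨t₀, ht₀⟩ := key d
    exact ⟨t₀, fun D ξ l hξ hht _ C hC => ht₀ D ξ hξ hht C l hC⟩
  · obtain ⟨d, hd⟩ := finrank_fixed hC hτ N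
    obtain ⟨t₀, ht₀⟩ := key d
    refine ⟨t₀, ?_⟩
    rintro D ξ hξ hht ⟨l, -, hl⟩
    refine hl fun Φ 𝔪 a b c => ?_
    exact ((Nat.le_add_right _ _).trans
      (Pool.Agent.T2h17.GH.codim_one (ht₀ D ξ hξ hht C l hC) le_rfl a b c)).trans hd
  · obtain ⟨t₀, ht₀⟩ := key 2
    refine ⟨t₀, ?_⟩
    rintro D ξ hξ hht ⟨l, -, C, hC, hl⟩
    refine hl fun Φ 𝔪 a b c => ?_
    have : NeZero n := ⟨by omega⟩
    have h1 := Pool.Agent.T2h17.GH.codim_one (ht₀ D ξ hξ hht C l hC.det) (le_sim hS hC) a b c
    have h2 := Pool.Agent.T2h17.GH.one_mem_one hC.det (one_sim (toC N) (toC S)) (cplx 𝔪)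
      (F lev H N ξ l C)
    have h3 : codim ((Submodule.span ℂ (𝒩 ∪ {toC N})).map (conjBy C)) 𝔪 (F lev H N ξ l C) + 1 ≤
        Module.finrank ℂ (Similitudes (toC N) (toC S)) := (Nat.add_le_add_left h2 _).trans h1
    omega

end Pool.Agent.Results.MP_eeb1a4_ag.GrowingDegree
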