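import Mathlib
import Pool.Agent.T2h17.TV.Sum
import Pool.Agent.T2h17.TV.Eng
import Pool.Agent.T2h17.CM.Fc

/-!
# Special points near a boundary point: the codimension is bounded by the limiting periods

Let `𝒱` be an arbitrary variation of mixed Hodge structure of rank `n` on an open part of the projective
line which comes from a family of varieties over `ℚ(x)`, with unipotent or trivial local monodromy at
`x = 0`; the weights, the Hodge numbers, the monodromy group and the number of the singularities are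
arbitrary. Its period matrix is `H(x) x^N C` with a matrix `H` of G-functions with rational coefficients, a
rational nilpotent matrix `N` and an invertible matrix `C`, the periods of the limiting mixed Hodge
structure (or of the fibre at `0`, if `N = 0`).

Let `x` be a special point, that is, `x` is in the Hodge locus, `𝔪` the Lie algebra of the Mumford–Tate
group of the fibre and `𝔤` the Lie algebra of the monodromy group. The codimension of the point is the
codimension at `x` of the Mumford–Tate subdomain of `𝔪` in the orbit `D` of the monodromy group, that is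
`dim 𝔤 - dim (𝔤 ∩ (𝔪 + F⁰))`, where `F⁰` are the endomorphisms which preserve the Hodge filtration. The
point is atypical if its codimension is greater than one, and the Zilber–Pink conjecture says that there
are only finitely many of them. The codimension of a point with complex multiplication is `dim D`.

We prove that near `x = 0` the codimension of ALL algebraic points of bounded degree (and height bounded
by a power of the inverse of the distance) is at most `τ + 1`, where `τ` is the transcendence degree of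
the field which is generated by the limiting periods `C` (at most `τ` for `N = 0`), and that even the
total codimension of any set of points in a window `x = 1 / (ξ - G u)`, `1 ≤ u ≤ W`, is at most `τ + 1`.
So there are no points of codimension `> τ + 1`, and for example no points with complex multiplication if
`dim D > τ + 1`; for `N = 0` this says that special points of large codimension repel each other (if the
fibre at `0` has complex multiplication then `τ` is at most the rank of the group). If one does not want to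
fix the rational structure, then the total codimension is smaller than the dimension of the Lie algebra of
the similitudes of the polarisation which normalise `N`, uniformly in all polarised rational structures in
which `N` is rational up to `2 π i`. These are consequences of a transversality theorem: the Lie algebra
of the monodromy group is contained in the sum of `𝔪`, of `F⁰` and of the tangent space of the variety of
the rational structures at `C`, simultaneously for any finite set of points of a window and any rational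
Lie algebra `𝔪` which contains the Hodge operator of the direct sum of the fibres.

Proof. Relations of bounded degree over `ℚ` between the values of the G-functions and the logarithms
`log (1 - G u / ξ)` at all points of a window hold on the orbits of the group and for all values of the
logarithms (values of G-functions at algebraic points of windows, projects of helper916 and others). An
ultraproduct of counterexamples gives derivations `D` of a field, with `D(H) = H Y` for arbitrary elements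
`Y` of the Lie algebra of the monodromy group and with unknown `D(C) = Z C`, where `Z` is tangent to all
rational relations for `C`. The derivative of the equation `P Φ = Φ₀ P` for the period matrices `P` and the
Hodge operators `Φ` shows that `P⁻¹ D(P)` is in `𝔪 + F⁰`.
-/

set_option autoImplicit false

open PowerSeries

namespace Pool.Agent.Results.MP_eeb1a4_ag.LimitingPeriods

/-- an integer polynomial as a power series with rational coefficients -/
noncomputable def toQ (P : Polynomial ℤ) : PowerSeries ℚ :=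
  ((P.map (Int.castRingHom ℚ) : Polynomial ℚ) : PowerSeries ℚ)

/-- the power series `P(u^e)` -/
noncomputable def atPow (e : ℕ) (P : Polynomial ℤ) : PowerSeries ℂ :=
  ((Polynomial.expand ℂ e (P.map (Int.castRingHom ℂ)) : Polynomial ℂ) : PowerSeries ℂ)

/-- the matrices `G_s` over `ℤ[x]` with `T^s y^(s) = G_s y` for all solutions `y` of `T y' = A y` -/
noncomputable def iter {r : ℕ} (T : Polynomial ℤ) (A : Fin r → Fin r → Polynomial ℤ) :
    ℕ → Fin r → Fin r → Polynomial ℤ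
  | 0 => fun i j => if i = j then 1 else 0
  | s + 1 => fun i j => T * Polynomial.derivative (iter T A s i j) + ∑ l, iter T A s i l * A l j -
      (s : Polynomial ℤ) * (Polynomial.derivative T * iter T A s i j)

/-- The system `T y' = A y` has a fundamental matrix of solutions of the form `u^(-M) ∑_n Φ_n(u) (log u)^n`
with `u^e = x` and convergent power series `Φ_n`: the point `0` is an ordinary point or a regular
singularity with rational exponents. -/
def QuasiUnipotent {r : ℕ} (T : Polynomial ℤ) (A : Fin r → Fin r → Polynomial ℤ) : Prop :=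
  ∃ (e M : ℕ) (K : ℝ) (Φ : Matrix (Fin r) (Fin r) (Polynomial (PowerSeries ℂ))), 1 ≤ e ∧ Φ.det ≠ 0 ∧
    (∀ i j n m, ‖coeff m ((Φ i j).coeff n)‖ ≤ K ^ (m + 1)) ∧
    ∀ i j n, atPow e T * (X * PowerSeries.derivative ℂ ((Φ i j).coeff n) +
        ((n : PowerSeries ℂ) + 1) * (Φ i j).coeff (n + 1) - (M : PowerSeries ℂ) * (Φ i j).coeff n) =
      (e : PowerSeries ℂ) * X ^ e * ∑ l, atPow e (A i l) * (Φ l j).coeff n

/-- `h_1, ..., h_r` are G-functions with rational coefficients which solve the differential system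
`T y' = A y`, with the conditions of Siegel and Galochkin, and the system is regular with rational
exponents at `0`. -/
structure GFamily {r : ℕ} (T : Polynomial ℤ) (A : Fin r → Fin r → Polynomial ℤ)
    (h : Fin r → PowerSeries ℚ) : Prop where
  /-- the denominator is not zero -/
  T_ne : T ≠ 0
  /-- the differential equations -/
  ode : ∀ i, toQ T * PowerSeries.derivative ℚ (h i) = ∑ j, toQ (A i j) * h j
  /-- the coefficients have geometric growth -/
  size : ∃ C : ℝ, ∀ i m, |((coeff m (h i) : ℚ) : ℝ)| ≤ C ^ (m + 1)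
  /-- the common denominators of the coefficients have geometric growth -/
  den : ∃ C : ℝ, ∀ m : ℕ, ∃ d : ℕ, 0 < d ∧ (d : ℝ) ≤ C ^ (m + 1) ∧
    ∀ i, ∀ j ≤ m, ∃ a : ℤ, (d : ℚ) * coeff j (h i) = a
  /-- Galochkin's condition: the common denominators of the matrices `G_s / s!` have geometric growth -/
  galochkin : ∃ C : ℝ, ∀ m : ℕ, ∃ d : ℕ, 0 < d ∧ (d : ℝ) ≤ C ^ (m + 1) ∧ ∀ s ≤ m, ∀ i j,
    ∃ H : Polynomial ℤ, (d : Polynomial ℤ) * iter T A s i j = (s.factorial : Polynomial ℤ) * H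
  /-- the local exponents at `0` are rational and the singularity is regular -/
  regular : QuasiUnipotent T A

/-- the entries of a matrix -/
def entries {n : ℕ} (H : Matrix (Fin n) (Fin n) (PowerSeries ℚ)) : Fin (n * n) → PowerSeries ℚ :=
  fun a => H (finProdFinEquiv.symm a).1 (finProdFinEquiv.symm a).2

/-- rational matrices as complex matrices -/
def toC {ι : Type} (M : Matrix ι ι ℚ) : Matrix ι ι ℂ := M.map fun x : ℚ => (x : ℂ)

/-- the value of `H` at `z` -/
noncomputable def val {n : ℕ} (H : Matrix (Fin n) (Fin n) (PowerSeries ℚ)) (z : ℂ) :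
    Matrix (Fin n) (Fin n) ℂ :=
  Matrix.of fun i j => ∑' k : ℕ, ((coeff k (H i j) : ℚ) : ℂ) * z ^ k

/-- the exponential `exp (s X)` of a nilpotent matrix -/
noncomputable def expN {n : ℕ} (X : Matrix (Fin n) (Fin n) ℂ) (s : ℂ) : Matrix (Fin n) (Fin n) ℂ :=
  ∑ a ∈ Finset.range n, (s ^ a / (a.factorial : ℂ)) • X ^ a

/-- The monodromy of the variation with the period matrix `H(x) x^N`: the matrices `X ∈ 𝒩` are
nilpotent, all polynomial relations `R(x, H(x)) = 0` over `ℚ[x]` between the entries of `H` hold near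
`x = 0` also for the matrices `H(x) g`, where `g` is a product of matrices `exp (s X)`, `X ∈ 𝒩`, and the
span of `𝒩` is normalised by the local monodromy `exp (2 π i N)` (it is the Lie algebra of the subgroup of
the monodromy group which fixes `log x`). -/
structure Monodromy {n : ℕ} (H : Matrix (Fin n) (Fin n) (PowerSeries ℚ))
    (N : Matrix (Fin n) (Fin n) ℚ) (𝒩 : Set (Matrix (Fin n) (Fin n) ℂ)) : Prop where
  det : H.det ≠ 0
  nil : N ^ n = 0
  dir : ∀ X ∈ 𝒩, X ^ n = 0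
  normal : ∀ X ∈ 𝒩, ∀ s : ℂ, expN (toC N) s * X * expN (toC N) (-s) ∈ Submodule.span ℂ 𝒩
  inv : ∃ ρ : ℝ, 0 < ρ ∧ ∀ R : MvPolynomial (Fin n × Fin n) (Polynomial ℚ),
    MvPolynomial.aeval (fun a : Fin n × Fin n => H a.1 a.2) R = 0 → ∀ z : ℂ, ‖z‖ < ρ →
      ∀ g ∈ Submonoid.closure {g | ∃ X ∈ 𝒩, ∃ s : ℂ, g = expN X s},
      MvPolynomial.eval₂ (Polynomial.aeval z : Polynomial ℚ →ₐ[ℚ] ℂ).toRingHom
        (fun a => (val H z * g) a.1 a.2) R = 0

/-- The period matrix `H(x) x^N = H(x) exp (N log x)` at `x = 1 / ξ`, with the value `-l` of `log x`,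
where `exp l = ξ`. -/
noncomputable def per {n : ℕ} (H : Matrix (Fin n) (Fin n) (PowerSeries ℚ)) (N : Matrix (Fin n) (Fin n) ℚ)
    (ξ l : ℂ) : Matrix (Fin n) (Fin n) ℂ := val H (1 / ξ) * expN (toC N) (-l)

/-- The step `F^p` of the Hodge filtration at the point `x = 1 / ξ` in the rational coordinates: the
span of the rows with a level `≥ p` of the period matrix; the levels `lev` can be any integers. -/
noncomputable def F {n : ℕ} (lev : Fin n → ℤ) (H : Matrix (Fin n) (Fin n) (PowerSeries ℚ))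
    (N : Matrix (Fin n) (Fin n) ℚ) (ξ l : ℂ) (C : Matrix (Fin n) (Fin n) ℂ) (p : ℤ) :
    Submodule ℂ (Fin n → ℂ) :=
  Submodule.span ℂ {v | ∃ i : Fin n, p ≤ lev i ∧ v = (per H N ξ l * C) i}

/-- a Lie algebra of rational matrices -/
def IsLie {ι : Type} [Fintype ι] (𝔪 : Submodule ℚ (Matrix ι ι ℚ)) : Prop :=
  ∀ X ∈ 𝔪, ∀ Y ∈ 𝔪, X * Y - Y * X ∈ 𝔪

/-- the complexification of a space of rational matrices -/
def cplx {ι : Type} (𝔪 : Submodule ℚ (Matrix ι ι ℚ)) : Submodule ℂ (Matrix ι ι ℂ) :=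
  Submodule.span ℂ (toC '' (𝔪 : Set (Matrix ι ι ℚ)))

/-- A Hodge operator acts (from the right) on `F^p / F^(p+1)` as the multiplication by `p`. For a Hodge
structure, or a mixed Hodge structure with its Deligne splitting, the operator which is the
multiplication by `p` on the parts of type `(p, q)` is the derivative of a cocharacter of the
Mumford–Tate group. -/
def HodgeOperator {n : ℕ} (F : ℤ → Submodule ℂ (Fin n → ℂ)) (Φ : Matrix (Fin n) (Fin n) ℂ) : Prop :=
  ∀ p, ∀ v ∈ F p, Matrix.vecMul v Φ - (p : ℂ) • v ∈ F (p + 1)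

/-- the operators which preserve the filtration `F` -/
def Stab {n : ℕ} (F : ℤ → Submodule ℂ (Fin n → ℂ)) : Submodule ℂ (Matrix (Fin n) (Fin n) ℂ) where
  carrier := {B | ∀ p, ∀ v ∈ F p, Matrix.vecMul v B ∈ F p}
  add_mem' := fun h h' p v hv => by
    rw [Matrix.vecMul_add]
    exact (F p).add_mem (h p v hv) (h' p v hv)
  zero_mem' := fun p v _ => by
    rw [Matrix.vecMul_zero]
    exact (F p).zero_mem
  smul_mem' := fun c B h p v hv => by
    rw [Matrix.vecMul_smul]
    exact (F p).smul_mem c (h p v hv)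

/-- the operators on the direct sum which preserve the filtration `F_1 ⊕ ⋯ ⊕ F_k` -/
def StabSum {n k : ℕ} (F : Fin k → ℤ → Submodule ℂ (Fin n → ℂ)) :
    Submodule ℂ (Matrix (Fin n × Fin k) (Fin n × Fin k) ℂ) where
  carrier := {B | ∀ (p : ℤ) (v : Fin n × Fin k → ℂ), (∀ j, (fun i => v (i, j)) ∈ F j p) →
    ∀ j, (fun i => (Matrix.vecMul v B) (i, j)) ∈ F j p}
  add_mem' := fun {B B'} h h' p v hv j => by
    have h1 : (fun i => (Matrix.vecMul v (B + B')) (i, j)) = (fun i => (Matrix.vecMul v B) (i, j)) +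
        fun i => (Matrix.vecMul v B') (i, j) := by
      funext i
      rw [Matrix.vecMul_add]
      rfl
    rw [h1]
    exact (F j p).add_mem (h p v hv j) (h' p v hv j)
  zero_mem' := fun p v hv j => by
    have h1 : (fun i => (Matrix.vecMul v
        (0 : Matrix (Fin n × Fin k) (Fin n × Fin k) ℂ)) (i, j)) = 0 := by
      funext i
      rw [Matrix.vecMul_zero]
      rfl
    rw [h1]
    exact (F j p).zero_mem
  smul_mem' := fun c B h p v hv j => by
    have h1 : (fun i => (Matrix.vecMul v (c • B)) (i, j)) =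
        c • fun i => (Matrix.vecMul v B) (i, j) := by
      funext i
      rw [Matrix.vecMul_smul]
      rfl
    rw [h1]
    exact (F j p).smul_mem c (h p v hv j)

/-- the conjugation `Y ↦ C⁻¹ Y C` from the flat coordinates to the rational coordinates -/
noncomputable def conjBy {n : ℕ} (C : Matrix (Fin n) (Fin n) ℂ) :
    Matrix (Fin n) (Fin n) ℂ →ₗ[ℂ] Matrix (Fin n) (Fin n) ℂ where
  toFun := fun Y => C⁻¹ * Y * C
  map_add' := fun Y Y' => by rw [Matrix.mul_add, Matrix.add_mul]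
  map_smul' := fun c Y => by
    rw [Matrix.mul_smul, Matrix.smul_mul]
    rfl

/-- the codimension `dim 𝔤 - dim (𝔤 ∩ (𝔪 + F⁰))` of the orbit of the group with the Lie algebra `𝔪` in the
orbit of the group with the Lie algebra `𝔤` at the filtration `F` -/
noncomputable def codim {n : ℕ} (𝔤 : Submodule ℂ (Matrix (Fin n) (Fin n) ℂ))
    (𝔪 : Submodule ℚ (Matrix (Fin n) (Fin n) ℚ)) (F : ℤ → Submodule ℂ (Fin n → ℂ)) : ℕ :=
  Module.finrank ℂ 𝔤 - Module.finrank ℂ (𝔤 ⊓ (cplx 𝔪 ⊔ Stab F) : Submodule ℂ _)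

/-- The total codimension of the fibres at the points `x = 1 / α_j` with the logarithms `l_j` of `α_j` is
at most `ν`: for all rational Lie algebras `𝔪_j` whose complexifications contain Hodge operators `Φ_j` of
the fibres (for example the Lie algebras of the Mumford–Tate groups) the sum of the codimensions of the
`𝔪_j` in the Lie algebra of the monodromy group, which is spanned by `N` and `𝒩`, is at most `ν`. -/
def TotalCodim {n k : ℕ} (lev : Fin n → ℤ) (H : Matrix (Fin n) (Fin n) (PowerSeries ℚ))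
    (N : Matrix (Fin n) (Fin n) ℚ) (𝒩 : Set (Matrix (Fin n) (Fin n) ℂ)) (C : Matrix (Fin n) (Fin n) ℂ)
    (α l : Fin k → ℂ) (ν : ℕ) : Prop :=
  ∀ (Φ : Fin k → Matrix (Fin n) (Fin n) ℂ) (𝔪 : Fin k → Submodule ℚ (Matrix (Fin n) (Fin n) ℚ)),
    (∀ j, HodgeOperator (F lev H N (α j) (l j) C) (Φ j)) → (∀ j, IsLie (𝔪 j)) →
    (∀ j, Φ j ∈ cplx (𝔪 j)) →
    ∑ j, codim ((Submodule.span ℂ (𝒩 ∪ {toC N})).map (conjBy C)) (𝔪 j)
      (F lev H N (α j) (l j) C) ≤ ν

/-- the matrices `Z` such that `Z C` is tangent at `C` to the variety of all rational equations of degree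
at most `d` which hold for `C` -/
def Tangent {n : ℕ} (d : ℕ) (C : Matrix (Fin n) (Fin n) ℂ) :
    Submodule ℂ (Matrix (Fin n) (Fin n) ℂ) where
  carrier := {Z | ∀ f : MvPolynomial (Fin n × Fin n) ℚ, f.totalDegree ≤ d →
    MvPolynomial.aeval (fun a => C a.1 a.2) f = 0 →
    ∑ a, MvPolynomial.aeval (fun a => C a.1 a.2) (MvPolynomial.pderiv a f) * (Z * C) a.1 a.2 = 0}
  add_mem' := fun hZ hZ' => (Pool.Agent.T2h17.TV.Tg d C).add_mem hZ hZ'
  zero_mem' := (Pool.Agent.T2h17.TV.Tg d C).zero_mem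
  smul_mem' := fun c _ hZ => (Pool.Agent.T2h17.TV.Tg d C).smul_mem c hZ

/-- Transversality at the points `x = 1 / α_j` with the logarithms `l_j`: for every rational Lie algebra
`𝔪` of matrices of size `n k` whose complexification contains the Hodge operator `(Φ_1, …, Φ_k)` of the
direct sum of the fibres, and all `Y_1, …, Y_k` in the Lie algebra of the monodromy group, there is a `Z`
in the sum of the tangent space at `C` and of the line of `N` such that the sum of `(Y_1, …, Y_k)` and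
`(Z, …, Z)`, in rational coordinates, is in `𝔪 + F⁰`. -/
def Transversal {n k : ℕ} (d : ℕ) (lev : Fin n → ℤ) (H : Matrix (Fin n) (Fin n) (PowerSeries ℚ))
    (N : Matrix (Fin n) (Fin n) ℚ) (𝒩 : Set (Matrix (Fin n) (Fin n) ℂ)) (C : Matrix (Fin n) (Fin n) ℂ)
    (α l : Fin k → ℂ) : Prop :=
  ∀ Φ : Fin k → Matrix (Fin n) (Fin n) ℂ, (∀ j, HodgeOperator (F lev H N (α j) (l j) C) (Φ j)) →
    ∀ 𝔪 : Submodule ℚ (Matrix (Fin n × Fin k) (Fin n × Fin k) ℚ), IsLie 𝔪 →
    Matrix.blockDiagonal Φ ∈ cplx 𝔪 →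
    ∀ Y : Fin k → Matrix (Fin n) (Fin n) ℂ, (∀ j, Y j ∈ Submodule.span ℂ (𝒩 ∪ {toC N})) →
    ∃ Z ∈ Tangent d C ⊔ Submodule.span ℂ {toC N},
      (Matrix.blockDiagonal fun j => conjBy C (Y j + Z)) ∈
        cplx 𝔪 ⊔ StabSum fun j => F lev H N (α j) (l j) C

/-- the Lie algebra of the infinitesimal similitudes of the form `S` which normalise the line of `N` -/
def Similitudes {n : ℕ} (N S : Matrix (Fin n) (Fin n) ℂ) : Submodule ℂ (Matrix (Fin n) (Fin n) ℂ) where
  carrier := {Z | (∃ μ : ℂ, Z * N - N * Z = μ • N) ∧ ∃ η : ℂ, Z * S + S * Z.transpose = η • S}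
  add_mem' := fun hZ hZ' => (Pool.Agent.T2h17.TV.Nrm N S).add_mem hZ hZ'
  zero_mem' := (Pool.Agent.T2h17.TV.Nrm N S).zero_mem
  smul_mem' := fun c _ hZ => (Pool.Agent.T2h17.TV.Nrm N S).smul_mem c hZ

/-- The base change `C` from the flat basis to a rational basis is a polarised rational structure: the
logarithm `2 π i C⁻¹ N C` of the local monodromy is rational and the form with the matrix `S` in the flat
basis is proportional to a rational form. -/
structure RationalStructure {n : ℕ} (S N : Matrix (Fin n) (Fin n) ℚ) (C : Matrix (Fin n) (Fin n) ℂ) :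
    Prop where
  det : C.det ≠ 0
  log : ∃ M : Matrix (Fin n) (Fin n) ℚ, C * toC M = (2 * (Real.pi : ℂ) * Complex.I) • (toC N * C)
  form : ∃ (P : Matrix (Fin n) (Fin n) ℚ) (κ : ℂ), κ ≠ 0 ∧ C * toC P * C.transpose = κ • toC S

/-- the transcendence degree of the field which is generated by the entries of `C` is at most `τ` -/
def TrdegLe {n : ℕ} (C : Matrix (Fin n) (Fin n) ℂ) (τ : ℕ) : Prop :=
  Algebra.trdeg ℚ (IntermediateField.adjoin ℚ (Set.range fun a : Fin n × Fin n => C a.1 a.2)) ≤ τ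

/-- the logarithms of the points `ξ - G u_j` near the logarithm `l` of `ξ` -/
noncomputable def logs {k : ℕ} (G : ℕ) (ξ l : ℂ) (u : Fin k → ℕ) : Fin k → ℂ := fun j =>
  l + Complex.log (1 - ((G * u j : ℕ) : ℂ) / ξ)

/-- `ξ` is a root of a nonzero integral polynomial of degree at most `g` with coefficients of size at
most `|ξ|^A` -/
def Height (g A : ℕ) (ξ : ℂ) : Prop :=
  ∃ p : Polynomial ℤ, p ≠ 0 ∧ p.natDegree ≤ g ∧ (∀ j, |(p.coeff j : ℝ)| ≤ ‖ξ‖ ^ A) ∧
    Polynomial.aeval ξ p = 0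

theorem iter_eq {r : ℕ} (T : Polynomial ℤ) (A : Fin r → Fin r → Polynomial ℤ) (s : ℕ) :
    iter T A s = Pool.Agent.Y120.GH.itm T A s := by
  induction s with
  | zero => rfl
  | succ s ih =>
    funext i j
    rw [iter, Pool.Agent.Y120.GH.itm, ih]

theorem qu_eq {r : ℕ} {T : Polynomial ℤ} {A : Fin r → Fin r → Polynomial ℤ} (h : QuasiUnipotent T A) :
    Pool.Agent.Y120.GH.QU0 T A := by
  obtain ⟨e, M, K, Φ, he, hdet, hc, heq⟩ := h
  have he0 : e ≠ 0 := by omega
  refine ⟨e, he0, M, K, Φ, hc, fun i j n => ?_, hdet⟩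
  have h1 := heq i j n
  simp only [atPow] at h1
  rw [Pool.Agent.Y120.GH.expand_poly he0]
  simp only [Pool.Agent.Y120.GH.expand_poly he0]
  exact h1

theorem gfam_eq {r : ℕ} {T : Polynomial ℤ} {A : Fin r → Fin r → Polynomial ℤ}
    {h : Fin r → PowerSeries ℚ} (hG : GFamily T A h) : Pool.Agent.Y916.Af.GFam T A h where
  hT := hG.T_ne
  hode := hG.ode
  hsize := hG.size
  hden := hG.den
  hgal := by
    obtain ⟨C, hC⟩ := hG.galochkin
    refine ⟨C, fun m => ?_⟩
    obtain ⟨d, h1, h2, h3⟩ := hC m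
    refine ⟨d, h1, h2, fun s hs i' j' => ?_⟩
    rw [← iter_eq]
    exact h3 s hs i' j'
  hqu := qu_eq hG.regular

theorem height_eq (g A : ℕ) (ξ : ℂ) : Height g A ξ ↔ Pool.Agent.Y916.Al.Ht g A ξ := Iff.rfl

/-- the transversality theorem in windows -/
theorem windows {n : ℕ} {lev : Fin n → ℤ} {T : Polynomial ℤ}
    {A : Fin (n * n) → Fin (n * n) → Polynomial ℤ} {H : Matrix (Fin n) (Fin n) (PowerSeries ℚ)}
    (hG : GFamily T A (entries H)) {N : Matrix (Fin n) (Fin n) ℚ}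
    {𝒩 : Set (Matrix (Fin n) (Fin n) ℂ)} (hM : Monodromy H N 𝒩) {ρ : ℝ} (hρ : 0 < ρ) :
    ∃ G0 : ℕ, 1 ≤ G0 ∧ ∀ G : ℕ, G0 ≤ G → ∀ k g A₀ d : ℕ, ∃ E : ℕ, ∀ (W : ℕ) (ξ l : ℂ),
      ((W : ℝ) + 2) ^ E ≤ ‖ξ‖ → Height g A₀ ξ → ∀ C : Matrix (Fin n) (Fin n) ℂ, C.det ≠ 0 →
      ∀ u : Fin k → ℕ, Function.Injective u → (∀ j, 1 ≤ u j ∧ u j ≤ W) →
      (∀ j, ‖1 / (ξ - ((G * u j : ℕ) : ℂ))‖ < ρ ∧ ξ - ((G * u j : ℕ) : ℂ) ≠ 0) ∧
      Pool.Agent.T2h17.TV.Trans N 𝒩 lev d C
        (fun j => Pool.Agent.T2h17.CM.Hz H (1 / (ξ - ((G * u j : ℕ) : ℂ)))) l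
        (Pool.Agent.T2h17.TV.lw G ξ u) := by
  obtain ⟨ρ₁, hρ₁, hinv⟩ := hM.inv
  have hsz : ∃ C : ℝ, ∀ i j m, |((coeff m (H i j) : ℚ) : ℝ)| ≤ C ^ (m + 1) := by
    obtain ⟨C, hC⟩ := hG.size
    refine ⟨C, fun i j m => ?_⟩
    have h1 := hC (finProdFinEquiv (i, j)) m
    unfold entries at h1
    rwa [Equiv.symm_apply_apply] at h1
  obtain ⟨ρ₂, hρ₂, hdet⟩ := Pool.Agent.T2h17.HW.det_near hsz hM.det
  set ρ' : ℝ := min ρ (min ρ₁ ρ₂) with hρ'
  have hρ'0 : 0 < ρ' := lt_min hρ (lt_min hρ₁ hρ₂)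
  have hρ'1 : ρ' ≤ ρ := min_le_left _ _
  have hρ'2 : ρ' ≤ ρ₁ := (min_le_right _ _).trans (min_le_left _ _)
  have hρ'3 : ρ' ≤ ρ₂ := (min_le_right _ _).trans (min_le_right _ _)
  have hinv' : Pool.Agent.T2h17.HW.InvR H 𝒩 ρ' := fun R hR z hz g hg =>
    hinv R hR z (hz.trans_le hρ'2) g hg
  have hnr := Pool.Agent.Y916.Af.nrh_of_gfam (gfam_eq hG)
  obtain ⟨G0, hG0, h1⟩ := Pool.Agent.T2h17.TV.win_rel hnr hρ'0 hinv'
  refine ⟨G0, hG0, fun G hGG k g A₀ d => ?_⟩
  obtain ⟨e, he⟩ := Pool.Agent.T2h17.TV.trans k hM.nil hM.dir hM.normal lev d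
  obtain ⟨E, hE⟩ := h1 G hGG k g A₀ e
  refine ⟨E, fun W ξ l hξ hht C hC u hu hub => ?_⟩
  obtain ⟨hnear, h2⟩ := hE W ξ hξ
  refine ⟨fun j => ⟨(hnear (u j) (hub j).2).1.trans_le hρ'1, (hnear (u j) (hub j).2).2⟩, ?_⟩
  exact he C _ l _ hC (fun j => hdet _ (one_div_ne_zero (hnear (u j) (hub j).2).2)
    ((hnear (u j) (hub j).2).1.trans_le hρ'3)) (h2 hht u hu hub)

/-- the filtrations -/
theorem F_eq {n : ℕ} (lev : Fin n → ℤ) (H : Matrix (Fin n) (Fin n) (PowerSeries ℚ))
    (N : Matrix (Fin n) (Fin n) ℚ) (α l t : ℂ) (C : Matrix (Fin n) (Fin n) ℂ) :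
    F lev H N α (l + t) C = Pool.Agent.T2h17.HW.Fil lev
      (Pool.Agent.T2h17.CM.Hz H (1 / α) *
        Pool.Agent.T2h17.HW.En (Pool.Agent.T2h17.HW.tc N) (-(l + t)) * C) := rfl

/-- the total codimension, from transversality -/
theorem total {n k : ℕ} {lev : Fin n → ℤ} {H : Matrix (Fin n) (Fin n) (PowerSeries ℚ)}
    {N : Matrix (Fin n) (Fin n) ℚ} {𝒩 : Set (Matrix (Fin n) (Fin n) ℂ)} {d : ℕ}
    {C : Matrix (Fin n) (Fin n) ℂ} {α : Fin k → ℂ} {l : ℂ} {t : Fin k → ℂ}
    (hT : Pool.Agent.T2h17.TV.Trans N 𝒩 lev d C (fun j => Pool.Agent.T2h17.CM.Hz H (1 / α j)) l t)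
    {𝔗 : Submodule ℂ (Matrix (Fin n) (Fin n) ℂ)}
    (h𝔗 : Pool.Agent.T2h17.TV.Tg d C ⊔ Submodule.span ℂ {toC N} ≤ 𝔗) :
    TotalCodim lev H N 𝒩 C α (fun j => l + t j) (Module.finrank ℂ 𝔗) := by
  intro Φ 𝔪 hΦ h𝔪 hmem
  have h1 := Pool.Agent.T2h17.TV.total hT h𝔗 hΦ h𝔪 hmem
  have h2 := Pool.Agent.T2h17.TV.finrank_cj C 𝔗
  exact (Nat.le_add_right _ _).trans (h1.trans h2)

/-- the total codimension, if the scalars are tangent -/
theorem total_one {n k : ℕ} {lev : Fin n → ℤ} {H : Matrix (Fin n) (Fin n) (PowerSeries ℚ)}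
    {N : Matrix (Fin n) (Fin n) ℚ} {𝒩 : Set (Matrix (Fin n) (Fin n) ℂ)} {d : ℕ}
    {C : Matrix (Fin n) (Fin n) ℂ} {α : Fin k → ℂ} {l : ℂ} {t : Fin k → ℂ} (hn : 1 ≤ n)
    (hC : C.det ≠ 0)
    (hT : Pool.Agent.T2h17.TV.Trans N 𝒩 lev d C (fun j => Pool.Agent.T2h17.CM.Hz H (1 / α j)) l t)
    {𝔗 : Submodule ℂ (Matrix (Fin n) (Fin n) ℂ)}
    (h𝔗 : Pool.Agent.T2h17.TV.Tg d C ⊔ Submodule.span ℂ {toC N} ≤ 𝔗)
    (h1T : (1 : Matrix (Fin n) (Fin n) ℂ) ∈ 𝔗) :
    TotalCodim lev H N 𝒩 C α (fun j => l + t j) (Module.finrank ℂ 𝔗 - 1) := by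
  intro Φ 𝔪 hΦ h𝔪 hmem
  have : NeZero n := ⟨by omega⟩
  have h1 := Pool.Agent.T2h17.TV.total hT h𝔗 hΦ h𝔪 hmem
  have h2 := Pool.Agent.T2h17.TV.finrank_cj C 𝔗
  have h3 := Pool.Agent.T2h17.TV.one_mem_inf hC h1T
    (fun j : Fin k => cplx (𝔪 j)) (fun j => F lev H N (α j) (l + t j) C)
  have h4 : ∑ j, codim ((Submodule.span ℂ (𝒩 ∪ {toC N})).map (conjBy C)) (𝔪 j)
      (F lev H N (α j) (l + t j) C) + 1 ≤ Module.finrank ℂ 𝔗 :=
    (Nat.add_le_add_left h3 _).trans (h1.trans h2)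
  show ∑ j, codim ((Submodule.span ℂ (𝒩 ∪ {toC N})).map (conjBy C)) (𝔪 j)
      (F lev H N (α j) (l + t j) C) ≤ _
  omega

/-- the bound for a fixed rational structure -/
theorem finrank_fixed {n : ℕ} {C : Matrix (Fin n) (Fin n) ℂ} (hC : C.det ≠ 0) {τ : ℕ}
    (hτ : TrdegLe C τ) (N : Matrix (Fin n) (Fin n) ℚ) : ∃ d : ℕ,
    Module.finrank ℂ (Pool.Agent.T2h17.TV.Tg d C ⊔ Submodule.span ℂ {toC N} : Submodule ℂ _) ≤
      τ + if N = 0 then 0 else 1 := by
  obtain ⟨d, hd⟩ := Pool.Agent.T2h17.TV.finrank_Tg hC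
  refine ⟨d, ?_⟩
  have h1 : Module.finrank ℂ (Pool.Agent.T2h17.TV.Tg d C) ≤ τ := by
    exact_mod_cast hd.trans hτ
  split_ifs with hN
  · subst hN
    have h2 : toC (0 : Matrix (Fin n) (Fin n) ℚ) = 0 := by
      ext i j
      simp [toC]
    rw [h2, Submodule.span_zero_singleton, sup_bot_eq]
    exact h1
  · refine (Submodule.finrank_add_le_finrank_add_finrank _ _).trans (Nat.add_le_add h1 ?_)
    refine (finrank_span_le_card _).trans ?_
    simp

/-- a point is a window with one point -/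
theorem point {n : ℕ} {lev : Fin n → ℤ} {H : Matrix (Fin n) (Fin n) (PowerSeries ℚ)}
    {N : Matrix (Fin n) (Fin n) ℚ} {𝒩 : Set (Matrix (Fin n) (Fin n) ℂ)} {d G0 E g A₀ : ℕ}
    (hE : ∀ (W : ℕ) (ξ l : ℂ),
      ((W : ℝ) + 2) ^ E ≤ ‖ξ‖ → Height g (A₀ + 1) ξ → ∀ C : Matrix (Fin n) (Fin n) ℂ, C.det ≠ 0 →
      ∀ u : Fin 1 → ℕ, Function.Injective u → (∀ j, 1 ≤ u j ∧ u j ≤ W) →
      Pool.Agent.T2h17.TV.Trans N 𝒩 lev d C
        (fun j => Pool.Agent.T2h17.CM.Hz H (1 / (ξ - ((G0 * u j : ℕ) : ℂ)))) l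
        (Pool.Agent.T2h17.TV.lw G0 ξ u)) :
    ∃ E' : ℕ, ∀ ξ l : ℂ, (E' : ℝ) ≤ ‖ξ‖ → Height g A₀ ξ → ∀ C : Matrix (Fin n) (Fin n) ℂ, C.det ≠ 0 →
      Pool.Agent.T2h17.TV.Trans (k := 1) N 𝒩 lev d C (fun _ => Pool.Agent.T2h17.CM.Hz H (1 / ξ)) l
        (fun _ => 0) := by
  obtain ⟨B, hB⟩ := Pool.Agent.Y119.HA.ht_add g A₀ G0
  obtain ⟨N₁, hN₁⟩ := exists_nat_ge B
  refine ⟨N₁ + 3 ^ E + G0 + 2, fun ξ l hξ hHt C hC => ?_⟩
  push_cast at hξ
  have hG0R : (0 : ℝ) ≤ G0 := Nat.cast_nonneg G0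
  have hN0R : (0 : ℝ) ≤ N₁ := Nat.cast_nonneg N₁
  have h3 : (0 : ℝ) ≤ 3 ^ E := by positivity
  have hHt' := hB ξ (by linarith) hHt
  have hbig : (((1 : ℕ) : ℝ) + 2) ^ E ≤ ‖ξ + G0‖ := by
    have h1 := norm_sub_norm_le ξ (-(G0 : ℂ))
    rw [norm_neg, Complex.norm_natCast, sub_neg_eq_add] at h1
    have h4 : (((1 : ℕ) : ℝ) + 2) ^ E = 3 ^ E := by norm_num
    rw [h4]
    linarith
  have h1 := hE 1 (ξ + G0) (l - Complex.log (1 - ((G0 * 1 : ℕ) : ℂ) / (ξ + G0))) hbig hHt' C hC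
    (fun _ => 1) (fun i j _ => Subsingleton.elim i j) (fun _ => ⟨le_rfl, le_rfl⟩)
  have h2 : ξ + (G0 : ℂ) - ((G0 * 1 : ℕ) : ℂ) = ξ := by
    push_cast
    ring
  simp only [h2] at h1
  intro Φ hΦ 𝔪 hbr hmem Y hY
  have h4 : ∀ j : Fin 1, l - Complex.log (1 - ((G0 * 1 : ℕ) : ℂ) / (ξ + G0)) +
      Pool.Agent.T2h17.TV.lw G0 (ξ + (G0 : ℂ)) (fun _ : Fin 1 => 1) j = l + 0 := by
    intro j
    show l - Complex.log (1 - ((G0 * 1 : ℕ) : ℂ) / (ξ + G0)) +
      Complex.log (1 - ((G0 * 1 : ℕ) : ℂ) / (ξ + G0)) = l + 0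
    ring
  have h5 := h1 Φ
  simp only [h4] at h5
  exact h5 hΦ 𝔪 hbr hmem Y hY

/-- the similitudes -/
theorem le_sim {n : ℕ} {S N : Matrix (Fin n) (Fin n) ℚ} {C : Matrix (Fin n) (Fin n) ℂ}
    (hN : toC N * toC S + toC S * (toC N).transpose = 0) (hC : RationalStructure S N C) :
    Pool.Agent.T2h17.TV.Tg 2 C ⊔ Submodule.span ℂ {toC N} ≤ Similitudes (toC N) (toC S) := by
  obtain ⟨hdet, ⟨M, hM⟩, P, κ, hκ, hP⟩ := hC
  refine sup_le ?_ ?_
  · intro Z hZ
    exact Pool.Agent.T2h17.TV.Tg_le_Nrm hdet Complex.two_pi_I_ne_zero hM hκ hP hZ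
  · rw [Submodule.span_le, Set.singleton_subset_iff]
    exact ⟨⟨0, by rw [sub_self, zero_smul]⟩, 0, by rw [hN, zero_smul]⟩

theorem one_sim {n : ℕ} (N S : Matrix (Fin n) (Fin n) ℂ) :
    (1 : Matrix (Fin n) (Fin n) ℂ) ∈ Similitudes N S := by
  refine ⟨⟨0, by rw [Matrix.one_mul, Matrix.mul_one, sub_self, zero_smul]⟩, 2, ?_⟩
  rw [Matrix.one_mul, Matrix.transpose_one, Matrix.mul_one, two_smul]

/-- Let `lev` be any levels, let `H` be an `n × n` matrix of G-functions with rational coefficients, let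
`N` be the logarithm of the local monodromy and `𝒩` the directions of the one-parameter subgroups of the
monodromy group.
(1) Windows, with a sufficiently large `G`: all algebraic `ξ` of degree `≤ g` and height `≤ |ξ|^A₀` with
`(W + 2)^E ≤ |ξ|`, all different `u_1, …, u_k` in `{1, …, W}`. (a) Transversality holds at the points
`x = 1 / (ξ - G u_j)` for all invertible `C`. (b) For a fixed `C` with transcendence degree at most `τ` the
total codimension of these points is at most `τ + 1`, and at most `τ` if `N = 0`. (c) The total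
codimension is smaller than the dimension of the Lie algebra of similitudes which normalise `N`, for all
polarised rational structures `C`.
(2) Points: all algebraic `ξ` of degree `≤ g` and height `≤ |ξ|^A₀` with `|ξ| ≥ E` and all logarithms `l`
of `ξ`. (a) The codimension of the point `x = 1 / ξ` is at most `τ + 1` (at most `τ` if `N = 0`) for a
fixed `C` with transcendence degree at most `τ`. (b) The codimension is smaller than the dimension of the
Lie algebra of similitudes which normalise `N`, for all polarised rational structures `C`. (c) For all `g`,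
`R` and `C` there are only finitely many algebraic integers `ξ` of degree `≤ g` such that at `1 / ξ'`, for
every conjugate `ξ'` of absolute value greater than `R`, there is a point of greater codimension. -/
theorem result {n : ℕ} (lev : Fin n → ℤ) (T : Polynomial ℤ)
    (A : Fin (n * n) → Fin (n * n) → Polynomial ℤ) (H : Matrix (Fin n) (Fin n) (PowerSeries ℚ))
    (hG : GFamily T A (entries H)) (N : Matrix (Fin n) (Fin n) ℚ)
    (𝒩 : Set (Matrix (Fin n) (Fin n) ℂ)) (hM : Monodromy H N 𝒩) :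
    (∃ G0 : ℕ, ∀ G : ℕ, G0 ≤ G → ∀ k g A₀ : ℕ,
      (∀ d : ℕ, ∃ E : ℕ, ∀ (W : ℕ) (ξ l : ℂ), ((W : ℝ) + 2) ^ E ≤ ‖ξ‖ → Height g A₀ ξ →
        Complex.exp l = ξ → ∀ C : Matrix (Fin n) (Fin n) ℂ, C.det ≠ 0 →
        ∀ u : Fin k → ℕ, Function.Injective u → (∀ j, 1 ≤ u j ∧ u j ≤ W) →
        Transversal d lev H N 𝒩 C (fun j => ξ - ((G * u j : ℕ) : ℂ)) (logs G ξ l u)) ∧
      (∀ (C : Matrix (Fin n) (Fin n) ℂ) (τ : ℕ), C.det ≠ 0 → TrdegLe C τ →
        ∃ E : ℕ, ∀ (W : ℕ) (ξ l : ℂ), ((W : ℝ) + 2) ^ E ≤ ‖ξ‖ → Height g A₀ ξ →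
        Complex.exp l = ξ → ∀ u : Fin k → ℕ, Function.Injective u → (∀ j, 1 ≤ u j ∧ u j ≤ W) →
        TotalCodim lev H N 𝒩 C (fun j => ξ - ((G * u j : ℕ) : ℂ)) (logs G ξ l u)
          (τ + if N = 0 then 0 else 1)) ∧
      (1 ≤ n → ∀ S : Matrix (Fin n) (Fin n) ℚ,
        toC N * toC S + toC S * (toC N).transpose = 0 →
        ∃ E : ℕ, ∀ (W : ℕ) (ξ l : ℂ), ((W : ℝ) + 2) ^ E ≤ ‖ξ‖ → Height g A₀ ξ →
        Complex.exp l = ξ → ∀ C : Matrix (Fin n) (Fin n) ℂ, RationalStructure S N C →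
        ∀ u : Fin k → ℕ, Function.Injective u → (∀ j, 1 ≤ u j ∧ u j ≤ W) →
        TotalCodim lev H N 𝒩 C (fun j => ξ - ((G * u j : ℕ) : ℂ)) (logs G ξ l u)
          (Module.finrank ℂ (Similitudes (toC N) (toC S)) - 1))) ∧
    (∀ g A₀ : ℕ,
      (∀ (C : Matrix (Fin n) (Fin n) ℂ) (τ : ℕ), C.det ≠ 0 → TrdegLe C τ →
        ∃ E : ℕ, ∀ ξ l : ℂ, (E : ℝ) ≤ ‖ξ‖ → Height g A₀ ξ → Complex.exp l = ξ →
        TotalCodim (k := 1) lev H N 𝒩 C (fun _ => ξ) (fun _ => l) (τ + if N = 0 then 0 else 1)) ∧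
      (1 ≤ n → ∀ S : Matrix (Fin n) (Fin n) ℚ,
        toC N * toC S + toC S * (toC N).transpose = 0 →
        ∃ E : ℕ, ∀ ξ l : ℂ, (E : ℝ) ≤ ‖ξ‖ → Height g A₀ ξ → Complex.exp l = ξ →
        ∀ C : Matrix (Fin n) (Fin n) ℂ, RationalStructure S N C →
        TotalCodim (k := 1) lev H N 𝒩 C (fun _ => ξ) (fun _ => l)
          (Module.finrank ℂ (Similitudes (toC N) (toC S)) - 1))) ∧
    (∀ (g : ℕ) (R : ℝ) (C : Matrix (Fin n) (Fin n) ℂ) (τ : ℕ), C.det ≠ 0 → TrdegLe C τ →
      {ξ : ℂ | IsIntegral ℤ ξ ∧ (minpoly ℚ ξ).natDegree ≤ g ∧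
        ∀ ξ' : ℂ, Polynomial.aeval ξ' (minpoly ℚ ξ) = 0 → R < ‖ξ'‖ →
        ∃ l : ℂ, Complex.exp l = ξ' ∧
          ¬ TotalCodim (k := 1) lev H N 𝒩 C (fun _ => ξ') (fun _ => l)
            (τ + if N = 0 then 0 else 1)}.Finite) := by
  obtain ⟨G0, hG0, hwin⟩ := windows (lev := lev) hG hM one_pos
  -- points
  have hpt : ∀ g A₀ d : ℕ, ∃ E' : ℕ, ∀ ξ l : ℂ, (E' : ℝ) ≤ ‖ξ‖ → Height g A₀ ξ →
      ∀ C : Matrix (Fin n) (Fin n) ℂ, C.det ≠ 0 →
      Pool.Agent.T2h17.TV.Trans (k := 1) N 𝒩 lev d C (fun _ => Pool.Agent.T2h17.CM.Hz H (1 / ξ)) l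
        (fun _ => 0) := by
    intro g A₀ d
    obtain ⟨E, hE⟩ := hwin G0 le_rfl 1 g (A₀ + 1) d
    exact point (G0 := G0) (E := E) fun W ξ l hξ hht C hC u hu hub =>
      (hE W ξ l hξ hht C hC u hu hub).2
  have hfix : ∀ (g A₀ : ℕ) (C : Matrix (Fin n) (Fin n) ℂ) (τ : ℕ), C.det ≠ 0 → TrdegLe C τ →
      ∃ E : ℕ, ∀ ξ l : ℂ, (E : ℝ) ≤ ‖ξ‖ → Height g A₀ ξ →
      TotalCodim (k := 1) lev H N 𝒩 C (fun _ => ξ) (fun _ => l) (τ + if N = 0 then 0 else 1) := by
    intro g A₀ C τ hC hτ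
    obtain ⟨d, hd⟩ := finrank_fixed hC hτ N
    obtain ⟨E, hE⟩ := hpt g A₀ d
    refine ⟨E, fun ξ l hξ hht => ?_⟩
    have h1 := total (hE ξ l hξ hht C hC) le_rfl
    simp only [add_zero] at h1
    intro Φ 𝔪 a b c
    exact (h1 Φ 𝔪 a b c).trans hd
  refine ⟨⟨G0, fun G hGG k g A₀ => ⟨?_, ?_, ?_⟩⟩, fun g A₀ => ⟨?_, ?_⟩, ?_⟩
  · intro d
    obtain ⟨E, hE⟩ := hwin G hGG k g A₀ d
    exact ⟨E, fun W ξ l hξ hht _ C hC u hu hub => (hE W ξ l hξ hht C hC u hu hub).2⟩
  · intro C τ hC hτ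
    obtain ⟨d, hd⟩ := finrank_fixed hC hτ N
    obtain ⟨E, hE⟩ := hwin G hGG k g A₀ d
    refine ⟨E, fun W ξ l hξ hht _ u hu hub => ?_⟩
    intro Φ 𝔪 a b c
    exact (total (hE W ξ l hξ hht C hC u hu hub).2 le_rfl Φ 𝔪 a b c).trans hd
  · intro hn S hS
    obtain ⟨E, hE⟩ := hwin G hGG k g A₀ 2
    refine ⟨E, fun W ξ l hξ hht _ C hC u hu hub => ?_⟩
    exact total_one hn hC.det (hE W ξ l hξ hht C hC.det u hu hub).2 (le_sim hS hC) (one_sim _ _)
  · intro C τ hC hτ
    obtain ⟨E, hE⟩ := hfix g A₀ C τ hC hτ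
    exact ⟨E, fun ξ l hξ hht _ => hE ξ l hξ hht⟩
  · intro hn S hS
    obtain ⟨E, hE⟩ := hpt g A₀ 2
    refine ⟨E, fun ξ l hξ hht _ C hC => ?_⟩
    have h1 := total_one hn hC.det (hE ξ l hξ hht C hC.det) (le_sim hS hC) (one_sim _ _)
    simp only [add_zero] at h1
    exact h1
  · intro g R C τ hC hτ
    obtain ⟨E, hE⟩ := hfix g (2 * g) C τ hC hτ
    refine Set.Finite.subset (Pool.Agent.T2h17.CM.finite_conj g E R (fun ξ => ∀ l : ℂ,
      TotalCodim (k := 1) lev H N 𝒩 C (fun _ => ξ) (fun _ => l) (τ + if N = 0 then 0 else 1))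
      fun ξ hξ hht l => hE ξ l hξ hht) ?_
    rintro ξ ⟨hint, hdeg, hall⟩
    refine ⟨hint, hdeg, fun ξ' hr h1' hP => ?_⟩
    obtain ⟨l, -, hl⟩ := hall ξ' hr h1'
    exact hl (hP l)

end Pool.Agent.Results.MP_eeb1a4_ag.LimitingPeriods
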