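import Mathlib
import Pool.Agent.T2h17.SM.Sc
import Pool.Agent.T2h17.SM.Cm
import Pool.Agent.T2h17.GP.Gour
import Pool.Agent.T2h17.GP.Lieb
import Pool.Agent.T2h17.GP.Hit
import Pool.Agent.T2h17.GP.Lsub
import Pool.Agent.T2h17.AH.Eng
import Pool.Agent.T2h17.TV.Trd2
import Pool.Agent.T2h17.TV.Nrm

/-!
# Variations with simple monodromy group: all tuples of points of windows are generic

Let `V` be a variation of (mixed) Hodge structures of rank `n` which comes from geometry, on a curve over a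
number field, `x` a local coordinate at a point `x₀` of the curve or of its completion. The period matrix is
`H(x) x^N C`, where the entries of `H` are linear combinations with algebraic coefficients of G-functions
`h₁, …, h_r` with rational coefficients (the components of the restriction of scalars from the function field
of the curve to `ℚ(x)`), `N` is a rational nilpotent matrix and `C` is the matrix of the periods of the
fibre at `x₀` (`N = 0`), or of the limit at `x₀`. The points near `x₀` are given by `x = 1 / ξ`. We assume that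
the Lie algebra `𝔤` of the monodromy group is SIMPLE, of any type and in any representation (`𝔰𝔩`, `𝔰𝔬`, `𝔰𝔭`,
exceptional), and let `m ≥ 1` be such that all proper subalgebras of `𝔤` have codimension at least `m` and
`2 m ≤ dim 𝔤` (`m = l` for `𝔰𝔩_(l+1)`, `2 l - 1` for `𝔰𝔭_(2 l)`, `l - 2` for `𝔰𝔬_l`, `l ≥ 7`, `5, 15, 16, 27, 57`
for `G₂, F₄, E₆, E₇, E₈`).

A rational tensor of type `(a, b)` on the direct sum of the fibres over `k` points is called algebraic if in
the coordinates of de Rham cohomology it is, up to a factor, algebraic over a number field of degree at most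
`D` (all classes of algebraic cycles, all absolute Hodge classes). We prove that in a window
`x = 1 / (ξ - G u)`, `1 ≤ u ≤ W`, where `ξ` is algebraic of bounded degree, of height bounded by a power of
`|ξ|`, and `|ξ| ≥ (W + 2)^E`, there is a set `S` of at most `ν / m` points such that for ALL `k` different points
of the window outside `S` all algebraic tensors of type `(a, b)`, `a, b ≤ a₀`, on the direct sum of the `k`
fibres are invariant under `𝔤^k`: there are no algebraic tensors besides those of the very general tuple,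
the `k`-tuple is a generic point of the `k`-th power of the variation, in particular it is not in the
atypical locus. Here `ν` is
(1) `τ` (`τ + 1` if `N ≠ 0`), where `τ` is the transcendence degree of the field of the RATIOS of the periods `C`;
(2) `⌊n / 2⌋` (`+ 1` if `N ≠ 0`), if `C` has complex multiplication and is polarised; so near a CM point ALL
`k`-tuples of the window are generic if `n / 2 < m`, for example for `𝔰𝔭_n`, `n ≥ 4`, and `𝔰𝔬_n`, `n ≥ 7`, in
the standard representation;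
(3) uniformly in all rational structures `C` polarised by `S`, with rational `2 π i C⁻¹ N C`, the dimension, minus
one, of the Lie algebra of the similitudes of `S` which normalise `N` (`S = 0` is allowed: no polarisation).

The theorem `HodgeGenericWindows` (for MP_e573c6_ag) is the case `𝔤 = 𝔰𝔭_n` in the standard representation,
with a set `S` which depends on the tuple.

Proof. By the transversality theorem (projects AH and TV of helper17, on the theorem on values of G-functions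
at algebraic points of windows of helper916 and others) the space of the elements of `𝔤^K` which preserve the
lines of the algebraic tensors of the sum of `K` fibres has codimension at most `ν` in `𝔤^K` for all `K`. It
is a Lie algebra. A subalgebra of codimension `ν` of `𝔤^K` contains the product of all but `ν / m` factors
(helper32). A compactness argument for hitting sets (helper25) gives a set `S` which does not depend on the
tuple, because algebraic tensors of a partial sum are algebraic tensors of the sum (helper45). At a CM point the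
ratios of the periods generate a field of transcendence degree at most `n / 2` (after helper84). After the
multiplication of `C` with a number which is transcendental over the field of the periods the scalars are
tangent to the relations, which improves the bound by one.
-/

set_option autoImplicit false

open PowerSeries

namespace Pool.Agent.Results.MP_eeb1a4_ag.SimpleMonodromy

/-- an integer polynomial as a power series with rational coefficients -/
noncomputable def toQ (P : Polynomial ℤ) : PowerSeries ℚ :=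
  ((P.map (Int.castRingHom ℚ) : Polynomial ℚ) : PowerSeries ℚ)

/-- the power series `P(u^e)` -/
noncomputable def atPow (e : ℕ) (P : Polynomial ℤ) : PowerSeries ℂ :=
  ((Polynomial.expand ℂ e (P.map (Int.castRingHom ℂ)) : Polynomial ℂ) : PowerSeries ℂ)

/-- the matrices `G_s` over `ℤ[x]` with `T^s y^(s) = G_s y` for all solutions `y` of `T y' = A y` -/
noncomputable def iter {r : ℕ} (T : Polynomial ℤ) (A : Fin r → Fin r → Polynomial ℤ) :
    ℕ → Fin r → Fin r → Polynomial ℤ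
  | 0 => fun i j => if i = j then 1 else 0
  | s + 1 => fun i j => T * Polynomial.derivative (iter T A s i j) + ∑ l, iter T A s i l * A l j -
      (s : Polynomial ℤ) * (Polynomial.derivative T * iter T A s i j)

/-- The system `T y' = A y` has a fundamental matrix of solutions of the form `u^(-M) ∑_n Φ_n(u) (log u)^n`
with `u^e = x` and convergent power series `Φ_n`: the point `0` is an ordinary point or a regular
singularity with rational exponents. -/
def QuasiUnipotent {r : ℕ} (T : Polynomial ℤ) (A : Fin r → Fin r → Polynomial ℤ) : Prop :=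
  ∃ (e M : ℕ) (K : ℝ) (Φ : Matrix (Fin r) (Fin r) (Polynomial (PowerSeries ℂ))), 1 ≤ e ∧ Φ.det ≠ 0 ∧
    (∀ i j n m, ‖coeff m ((Φ i j).coeff n)‖ ≤ K ^ (m + 1)) ∧
    ∀ i j n, atPow e T * (X * PowerSeries.derivative ℂ ((Φ i j).coeff n) +
        ((n : PowerSeries ℂ) + 1) * (Φ i j).coeff (n + 1) - (M : PowerSeries ℂ) * (Φ i j).coeff n) =
      (e : PowerSeries ℂ) * X ^ e * ∑ l, atPow e (A i l) * (Φ l j).coeff n

/-- `h_1, ..., h_r` are G-functions with rational coefficients which solve the differential system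
`T y' = A y`, with the conditions of Siegel and Galochkin, and the system is regular with rational
exponents at `0`. -/
structure GFamily {r : ℕ} (T : Polynomial ℤ) (A : Fin r → Fin r → Polynomial ℤ)
    (h : Fin r → PowerSeries ℚ) : Prop where
  /-- the denominator is not zero -/
  T_ne : T ≠ 0
  /-- the differential equations -/
  ode : ∀ i, toQ T * PowerSeries.derivative ℚ (h i) = ∑ j, toQ (A i j) * h j
  /-- the coefficients have geometric growth -/
  size : ∃ C : ℝ, ∀ i m, |((coeff m (h i) : ℚ) : ℝ)| ≤ C ^ (m + 1)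
  /-- the common denominators of the coefficients have geometric growth -/
  den : ∃ C : ℝ, ∀ m : ℕ, ∃ d : ℕ, 0 < d ∧ (d : ℝ) ≤ C ^ (m + 1) ∧
    ∀ i, ∀ j ≤ m, ∃ a : ℤ, (d : ℚ) * coeff j (h i) = a
  /-- Galochkin's condition: the common denominators of the matrices `G_s / s!` have geometric growth -/
  galochkin : ∃ C : ℝ, ∀ m : ℕ, ∃ d : ℕ, 0 < d ∧ (d : ℝ) ≤ C ^ (m + 1) ∧ ∀ s ≤ m, ∀ i j,
    ∃ H : Polynomial ℤ, (d : Polynomial ℤ) * iter T A s i j = (s.factorial : Polynomial ℤ) * H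
  /-- the local exponents at `0` are rational and the singularity is regular -/
  regular : QuasiUnipotent T A

/-- rational matrices as complex matrices -/
def toC {α γ : Type} (M : Matrix α γ ℚ) : Matrix α γ ℂ := M.map fun x : ℚ => (x : ℂ)

/-- the values of the power series `h_1, ..., h_r` at `z` -/
noncomputable def val {r : ℕ} (h : Fin r → PowerSeries ℚ) (z : ℂ) : Fin r → ℂ :=
  fun i => ∑' k : ℕ, ((coeff k (h i) : ℚ) : ℂ) * z ^ k

/-- the matrix with the entries `∑ β y`: linear combinations of `y_1, ..., y_r` -/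
def comb {r n : ℕ} (β : Fin n × Fin n → Fin r → ℂ) (y : Fin r → ℂ) : Matrix (Fin n) (Fin n) ℂ :=
  Matrix.of fun i j => ∑ s, β (i, j) s * y s

/-- the exponential `exp (s X)` of a nilpotent matrix -/
noncomputable def expN {n : ℕ} (X : Matrix (Fin n) (Fin n) ℂ) (s : ℂ) : Matrix (Fin n) (Fin n) ℂ :=
  ∑ a ∈ Finset.range n, (s ^ a / (a.factorial : ℂ)) • X ^ a

/-- The family: the matrix `H(x)` has the entries `∑ β h(x)` with algebraic `β`, it is invertible near
`x = 0`, `x ≠ 0`, and the period matrix of the variation is `H(x) x^N C`. The set `𝒩` consists of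
directions of one-parameter groups of the monodromy group, every direction with its action `X.1` on the
solutions `h` and its action `X.2` on the cohomology: both are nilpotent, they are compatible with `β`, all
polynomial relations `R(x, h(x)) = 0` over `ℚ[x]` hold near `x = 0` also for the vectors `h(x) g`, where `g`
is a product of matrices `exp (s X.1)`, `X ∈ 𝒩`, and the span of the `X.2` is normalised by the local
monodromy `exp (2 π i N)` (it is the Lie algebra of the subgroup of the monodromy group which fixes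
`log x`). -/
structure Family {r n : ℕ} (β : Fin n × Fin n → Fin r → ℂ) (h : Fin r → PowerSeries ℚ)
    (N : Matrix (Fin n) (Fin n) ℚ)
    (𝒩 : Set (Matrix (Fin r) (Fin r) ℂ × Matrix (Fin n) (Fin n) ℂ)) : Prop where
  alg : ∀ a s, IsAlgebraic ℚ (β a s)
  det : ∃ ρ : ℝ, 0 < ρ ∧ ∀ z : ℂ, z ≠ 0 → ‖z‖ < ρ → (comb β (val h z)).det ≠ 0
  nil : N ^ n = 0
  dir : ∀ X ∈ 𝒩, X.1 ^ r = 0 ∧ X.2 ^ n = 0
  equiv : ∀ X ∈ 𝒩, ∀ y : Fin r → ℂ, comb β (Matrix.vecMul y X.1) = comb β y * X.2
  normal : ∀ X ∈ 𝒩, ∀ s : ℂ, expN (toC N) s * X.2 * expN (toC N) (-s) ∈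
    Submodule.span ℂ (Prod.snd '' 𝒩)
  inv : ∃ ρ : ℝ, 0 < ρ ∧ ∀ R : MvPolynomial (Fin r) (Polynomial ℚ), MvPolynomial.aeval h R = 0 →
    ∀ z : ℂ, ‖z‖ < ρ → ∀ g ∈ Submonoid.closure {g | ∃ X ∈ 𝒩, ∃ s : ℂ, g = expN X.1 s},
      MvPolynomial.eval₂ (Polynomial.aeval z : Polynomial ℚ →ₐ[ℚ] ℂ).toRingHom
        (Matrix.vecMul (val h z) g) R = 0

/-- The period matrix `H(x) x^N C = H(x) exp (N log x) C` at `x = 1 / ξ`, with the value `-l` of `log x`,
where `exp l = ξ`; the rows belong to a basis of de Rham cohomology, the columns to a rational basis. -/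
noncomputable def per {r n : ℕ} (β : Fin n × Fin n → Fin r → ℂ) (h : Fin r → PowerSeries ℚ)
    (N : Matrix (Fin n) (Fin n) ℚ) (C : Matrix (Fin n) (Fin n) ℂ) (ξ l : ℂ) :
    Matrix (Fin n) (Fin n) ℂ := comb β (val h (1 / ξ)) * expN (toC N) (-l) * C

/-- the tensor power of a matrix -/
def tens {α γ : Type} (a : ℕ) (A : Matrix α γ ℂ) : Matrix (Fin a → α) (Fin a → γ) ℂ :=
  Matrix.of fun i m => ∏ s, A (i s) (m s)

/-- the action `X ⊗ 1 ⊗ ⋯ ⊗ 1 + ⋯ + 1 ⊗ ⋯ ⊗ 1 ⊗ X` of a matrix on the tensor power -/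
def dtens {ι : Type} [DecidableEq ι] (a : ℕ) (X : Matrix ι ι ℂ) : Matrix (Fin a → ι) (Fin a → ι) ℂ :=
  Matrix.of fun i m => ∑ s, ∏ s', if s' = s then X (i s') (m s') else (if i s' = m s' then (1 : ℂ) else 0)

/-- The rational tensor `T` of type `(a, b)`, a homomorphism from the `a`-th to the `b`-th tensor power in
the rational coordinates, is algebraic in de Rham cohomology up to a factor: its coordinates
with respect to the basis of de Rham cohomology are proportional to elements of a number field of degree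
at most `D`. (All Hodge tensors on an abelian variety, and all algebraic classes, have this property.) -/
def AlgebraicTensor {ι : Type} [Fintype ι] [DecidableEq ι] (D : ℕ) (P : Matrix ι ι ℂ) {a b : ℕ}
    (T : Matrix (Fin a → ι) (Fin b → ι) ℚ) : Prop :=
  ∃ (K : IntermediateField ℚ ℂ) (κ : ℂ), FiniteDimensional ℚ K ∧ Module.finrank ℚ K ≤ D ∧ κ ≠ 0 ∧
    ∀ i m, ∃ w ∈ K, (tens a P * toC T * tens b P⁻¹) i m = κ * w

theorem dtens_eq {ι : Type} [DecidableEq ι] (a : ℕ) (X : Matrix ι ι ℂ) :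
    dtens a X = Pool.Agent.T2h17.AH.dpw a X := by
  ext i m
  rw [Pool.Agent.T2h17.AH.dpw, Matrix.sum_apply, dtens, Matrix.of_apply]
  refine Finset.sum_congr rfl fun s _ => ?_
  rw [Pool.Agent.T2h17.AH.tp_apply]
  refine Finset.prod_congr rfl fun s' _ => ?_
  by_cases h : s' = s
  · subst h
    rw [if_pos rfl, Function.update_self]
  · rw [if_neg h, Function.update_of_ne h, Matrix.one_apply]

/-- the conjugation `Y ↦ C⁻¹ Y C` from the flat coordinates to the rational coordinates -/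
noncomputable def conjBy {n : ℕ} (C : Matrix (Fin n) (Fin n) ℂ) :
    Matrix (Fin n) (Fin n) ℂ →ₗ[ℂ] Matrix (Fin n) (Fin n) ℂ where
  toFun := fun Y => C⁻¹ * Y * C
  map_add' := fun Y Y' => by rw [Matrix.mul_add, Matrix.add_mul]
  map_smul' := fun c Y => by
    rw [Matrix.mul_smul, Matrix.smul_mul]
    rfl

/-- the Lie algebra of the monodromy group in the flat coordinates: the span of `N` and of the directions
in `𝒩` -/
def mon {r n : ℕ} (N : Matrix (Fin n) (Fin n) ℚ)
    (𝒩 : Set (Matrix (Fin r) (Fin r) ℂ × Matrix (Fin n) (Fin n) ℂ)) :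
    Submodule ℂ (Matrix (Fin n) (Fin n) ℂ) := Submodule.span ℂ (Prod.snd '' 𝒩 ∪ {toC N})

/-- The fibre with the period matrix `C` has complex multiplication: there is a rational endomorphism `M`
with `n` different eigenvalues which is algebraic in the coordinates of de Rham cohomology. -/
def ComplexMultiplication {n : ℕ} (C : Matrix (Fin n) (Fin n) ℂ) : Prop :=
  ∃ (M : Matrix (Fin n) (Fin n) ℚ) (A : Matrix (Fin n) (Fin n) ℂ), M.charpoly.Separable ∧
    (∀ i j, IsAlgebraic ℚ (A i j)) ∧ C * toC M = A * C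

/-- The Lie algebra `g` is simple and not commutative, all proper subalgebras have codimension at least `m`,
and `2 m ≤ dim g`. -/
structure Simple {n : ℕ} (g : Submodule ℂ (Matrix (Fin n) (Fin n) ℂ)) (m : ℕ) : Prop where
  bracket : ∀ X ∈ g, ∀ Y ∈ g, X * Y - Y * X ∈ g
  ideal : ∀ I : Submodule ℂ (Matrix (Fin n) (Fin n) ℂ), I ≤ g → (∀ X ∈ g, ∀ Y ∈ I, X * Y - Y * X ∈ I) →
    I = ⊥ ∨ I = g
  noncomm : ∃ X ∈ g, ∃ Y ∈ g, X * Y ≠ Y * X
  codim : ∀ h : Submodule ℂ (Matrix (Fin n) (Fin n) ℂ), h ≤ g → (∀ X ∈ h, ∀ Y ∈ h, X * Y - Y * X ∈ h) →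
    h ≠ g → Module.finrank ℂ h + m ≤ Module.finrank ℂ g
  large : 2 * m ≤ Module.finrank ℂ g

/-- All algebraic tensors of type `(a, b)`, `a, b ≤ a₀`, on the direct sum of the fibres with the period
matrices `B j` are invariant under the power `g^k`, which acts on the rational coordinates by `C⁻¹ Y_j C`. -/
def Invariant {n k : ℕ} (D a₀ : ℕ) (g : Submodule ℂ (Matrix (Fin n) (Fin n) ℂ)) (C : Matrix (Fin n) (Fin n) ℂ)
    (B : Fin k → Matrix (Fin n) (Fin n) ℂ) : Prop :=
  ∀ a ≤ a₀, ∀ b ≤ a₀, ∀ T : Matrix (Fin a → Fin n × Fin k) (Fin b → Fin n × Fin k) ℚ,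
    AlgebraicTensor D (Matrix.blockDiagonal B) T → ∀ Y : Fin k → Matrix (Fin n) (Fin n) ℂ, (∀ j, Y j ∈ g) →
    dtens a (Matrix.blockDiagonal fun j => conjBy C (Y j)) * toC T =
      toC T * dtens b (Matrix.blockDiagonal fun j => conjBy C (Y j))

/-- The window `x = 1 / (ξ - G u)`, `1 ≤ u ≤ W`, with the branch of the logarithm given by `l = log ξ`: there is a
set `S` of points with `m |S| ≤ ν` such that all `k`-tuples of different points outside `S` are generic. -/
def GenericWindow {n r : ℕ} (k D a₀ m ν G W : ℕ) (β : Fin n × Fin n → Fin r → ℂ) (h : Fin r → PowerSeries ℚ)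
    (N : Matrix (Fin n) (Fin n) ℚ) (𝒩 : Set (Matrix (Fin r) (Fin r) ℂ × Matrix (Fin n) (Fin n) ℂ))
    (C : Matrix (Fin n) (Fin n) ℂ) (ξ l : ℂ) : Prop :=
  ∃ S : Finset ℕ, S.card * m ≤ ν ∧ ∀ u : Fin k → ℕ, Function.Injective u →
    (∀ j, 1 ≤ u j ∧ u j ≤ W ∧ u j ∉ S) → Invariant D a₀ (mon N 𝒩) C fun j =>
      per β h N C (ξ - ((G * u j : ℕ) : ℂ)) (l + Complex.log (1 - ((G * u j : ℕ) : ℂ) / ξ))

/-- the form with the matrix `S` in the flat coordinates is proportional to a rational form -/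
def Polarised {n : ℕ} (S : Matrix (Fin n) (Fin n) ℚ) (C : Matrix (Fin n) (Fin n) ℂ) : Prop :=
  ∃ (P : Matrix (Fin n) (Fin n) ℚ) (κ : ℂ), κ ≠ 0 ∧ C * toC P * C.transpose = κ • toC S

/-- the Lie algebra of the infinitesimal similitudes of the form `S` which normalise the line of `N` -/
def Similitudes {n : ℕ} (N S : Matrix (Fin n) (Fin n) ℂ) : Submodule ℂ (Matrix (Fin n) (Fin n) ℂ) where
  carrier := {Z | (∃ μ : ℂ, Z * N - N * Z = μ • N) ∧ ∃ η : ℂ, Z * S + S * Z.transpose = η • S}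
  add_mem' := fun hZ hZ' => (Pool.Agent.T2h17.TV.Nrm N S).add_mem hZ hZ'
  zero_mem' := (Pool.Agent.T2h17.TV.Nrm N S).zero_mem
  smul_mem' := fun c _ hZ => (Pool.Agent.T2h17.TV.Nrm N S).smul_mem c hZ

/-- The base change `C` from the flat basis to a rational basis is a polarised rational structure: the
logarithm `2 π i C⁻¹ N C` of the local monodromy is rational and the form with the matrix `S` in the flat
basis is proportional to a rational form. -/
structure RationalStructure {n : ℕ} (S N : Matrix (Fin n) (Fin n) ℚ) (C : Matrix (Fin n) (Fin n) ℂ) :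
    Prop where
  det : C.det ≠ 0
  log : ∃ M : Matrix (Fin n) (Fin n) ℚ, C * toC M = (2 * (Real.pi : ℂ) * Complex.I) • (toC N * C)
  form : ∃ (P : Matrix (Fin n) (Fin n) ℚ) (κ : ℂ), κ ≠ 0 ∧ C * toC P * C.transpose = κ • toC S

/-- the transcendence degree of the field which is generated by the entries of `C` is at most `τ` -/
def TrdegLe {n : ℕ} (C : Matrix (Fin n) (Fin n) ℂ) (τ : ℕ) : Prop :=
  Algebra.trdeg ℚ (IntermediateField.adjoin ℚ (Set.range fun a : Fin n × Fin n => C a.1 a.2)) ≤ τ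

/-- `ξ` is a root of a nonzero integral polynomial of degree at most `g` with coefficients of size at
most `|ξ|^A` -/
def Height (g A : ℕ) (ξ : ℂ) : Prop :=
  ∃ p : Polynomial ℤ, p ≠ 0 ∧ p.natDegree ≤ g ∧ (∀ j, |(p.coeff j : ℝ)| ≤ ‖ξ‖ ^ A) ∧
    Polynomial.aeval ξ p = 0

theorem iter_eq {r : ℕ} (T : Polynomial ℤ) (A : Fin r → Fin r → Polynomial ℤ) (s : ℕ) :
    iter T A s = Pool.Agent.Y120.GH.itm T A s := by
  induction s with
  | zero => rfl
  | succ s ih =>
    funext i j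
    rw [iter, Pool.Agent.Y120.GH.itm, ih]

theorem qu_eq {r : ℕ} {T : Polynomial ℤ} {A : Fin r → Fin r → Polynomial ℤ} (h : QuasiUnipotent T A) :
    Pool.Agent.Y120.GH.QU0 T A := by
  obtain ⟨e, M, K, Φ, he, hdet, hc, heq⟩ := h
  have he0 : e ≠ 0 := by omega
  refine ⟨e, he0, M, K, Φ, hc, fun i j n => ?_, hdet⟩
  have h1 := heq i j n
  simp only [atPow] at h1
  rw [Pool.Agent.Y120.GH.expand_poly he0]
  simp only [Pool.Agent.Y120.GH.expand_poly he0]
  exact h1

theorem gfam_eq {r : ℕ} {T : Polynomial ℤ} {A : Fin r → Fin r → Polynomial ℤ}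
    {h : Fin r → PowerSeries ℚ} (hG : GFamily T A h) : Pool.Agent.Y916.Af.GFam T A h where
  hT := hG.T_ne
  hode := hG.ode
  hsize := hG.size
  hden := hG.den
  hgal := by
    obtain ⟨C, hC⟩ := hG.galochkin
    refine ⟨C, fun m => ?_⟩
    obtain ⟨d, h1, h2, h3⟩ := hC m
    refine ⟨d, h1, h2, fun s hs i' j' => ?_⟩
    rw [← iter_eq]
    exact h3 s hs i' j'
  hqu := qu_eq hG.regular

theorem height_eq (g A : ℕ) (ξ : ℂ) : Height g A ξ ↔ Pool.Agent.Y916.Al.Ht g A ξ := Iff.rfl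

/-- the bound for a fixed rational structure -/
theorem finrank_fixed {n : ℕ} {C : Matrix (Fin n) (Fin n) ℂ} (hC : C.det ≠ 0) {τ : ℕ}
    (hτ : TrdegLe C τ) (N : Matrix (Fin n) (Fin n) ℚ) : ∃ d : ℕ,
    Module.finrank ℂ (Pool.Agent.T2h17.TV.Tg d C ⊔ Submodule.span ℂ {toC N} : Submodule ℂ _) ≤
      τ + if N = 0 then 0 else 1 := by
  obtain ⟨d, hd⟩ := Pool.Agent.T2h17.TV.finrank_Tg hC
  refine ⟨d, ?_⟩
  have h1 : Module.finrank ℂ (Pool.Agent.T2h17.TV.Tg d C) ≤ τ := by
    exact_mod_cast hd.trans hτ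
  split_ifs with hN
  · subst hN
    have h2 : toC (0 : Matrix (Fin n) (Fin n) ℚ) = 0 := by
      ext i j
      simp [toC]
    rw [h2, Submodule.span_zero_singleton, sup_bot_eq]
    exact h1
  · refine (Submodule.finrank_add_le_finrank_add_finrank _ _).trans (Nat.add_le_add h1 ?_)
    refine (finrank_span_le_card _).trans ?_
    simp

/-- the similitudes -/
theorem le_sim {n : ℕ} {S N : Matrix (Fin n) (Fin n) ℚ} {C : Matrix (Fin n) (Fin n) ℂ}
    (hN : toC N * toC S + toC S * (toC N).transpose = 0) (hC : RationalStructure S N C) :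
    Pool.Agent.T2h17.TV.Tg 2 C ⊔ Submodule.span ℂ {toC N} ≤ Similitudes (toC N) (toC S) := by
  obtain ⟨hdet, ⟨M, hM⟩, P, κ, hκ, hP⟩ := hC
  refine sup_le ?_ ?_
  · intro Z hZ
    exact Pool.Agent.T2h17.TV.Tg_le_Nrm hdet Complex.two_pi_I_ne_zero hM hκ hP hZ
  · rw [Submodule.span_le, Set.singleton_subset_iff]
    exact ⟨⟨0, by rw [sub_self, zero_smul]⟩, 0, by rw [hN, zero_smul]⟩

theorem one_sim {n : ℕ} (N S : Matrix (Fin n) (Fin n) ℂ) :
    (1 : Matrix (Fin n) (Fin n) ℂ) ∈ Similitudes N S := by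
  refine ⟨⟨0, by rw [Matrix.one_mul, Matrix.mul_one, sub_self, zero_smul]⟩, 2, ?_⟩
  rw [Matrix.one_mul, Matrix.transpose_one, Matrix.mul_one, two_smul]

/-- the transversality theorem in windows -/
theorem windows {n r : ℕ} {T : Polynomial ℤ} {A : Fin r → Fin r → Polynomial ℤ}
    {h : Fin r → PowerSeries ℚ} (hG : GFamily T A h) {β : Fin n × Fin n → Fin r → ℂ}
    {N : Matrix (Fin n) (Fin n) ℚ}
    {𝒩 : Set (Matrix (Fin r) (Fin r) ℂ × Matrix (Fin n) (Fin n) ℂ)} (hM : Family β h N 𝒩) :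
    ∃ G0 : ℕ, 1 ≤ G0 ∧ ∀ G : ℕ, G0 ≤ G → ∀ k g A₀ d D a₀ : ℕ, ∃ E : ℕ, ∀ (W : ℕ) (ξ l : ℂ),
      ((W : ℝ) + 2) ^ E ≤ ‖ξ‖ → Height g A₀ ξ → ∀ C : Matrix (Fin n) (Fin n) ℂ, C.det ≠ 0 →
      ∀ u : Fin k → ℕ, Function.Injective u → (∀ j, 1 ≤ u j ∧ u j ≤ W) →
      (∀ j, (comb β (val h (1 / (ξ - ((G * u j : ℕ) : ℂ))))).det ≠ 0) ∧
      Pool.Agent.T2h17.AH.Trans3 β N 𝒩 d a₀ D C
        (fun j => val h (1 / (ξ - ((G * u j : ℕ) : ℂ)))) l (Pool.Agent.T2h17.TV.lw G ξ u) := by
  obtain ⟨ρ₁, hρ₁, hinv⟩ := hM.inv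
  obtain ⟨ρ₂, hρ₂, hdet⟩ := hM.det
  set ρ' : ℝ := min ρ₁ ρ₂ with hρ'
  have hρ'0 : 0 < ρ' := lt_min hρ₁ hρ₂
  have hρ'2 : ρ' ≤ ρ₁ := min_le_left _ _
  have hρ'3 : ρ' ≤ ρ₂ := min_le_right _ _
  have hcl : Submonoid.closure {g | ∃ X ∈ 𝒩, ∃ s : ℂ, g = expN X.1 s} =
      Pool.Agent.T2h17.HW.Grp (Prod.fst '' 𝒩) := by
    unfold Pool.Agent.T2h17.HW.Grp
    congr 1
    ext g
    constructor
    · rintro ⟨X, hX, s, rfl⟩
      exact ⟨X.1, ⟨X, hX, rfl⟩, s, rfl⟩
    · rintro ⟨_, ⟨X, hX, rfl⟩, s, rfl⟩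
      exact ⟨X, hX, s, rfl⟩
  have hinv' : Pool.Agent.T2h17.AH.InvV h (Prod.fst '' 𝒩) ρ' := fun R hR z hz g hg =>
    hinv R hR z (hz.trans_le hρ'2) g (by rw [hcl]; exact hg)
  have hnr := Pool.Agent.Y916.Af.nrh_of_gfam (gfam_eq hG)
  obtain ⟨G0, hG0, h1⟩ := Pool.Agent.T2h17.AH.win_relv hnr hρ'0 hinv'
  refine ⟨G0, hG0, fun G hGG k g A₀ d D a₀ => ?_⟩
  obtain ⟨e, he⟩ := Pool.Agent.T2h17.AH.trans3 k hM.alg hM.nil (fun X hX => (hM.dir X hX).1) hM.equiv
    (by
      rintro _ ⟨X, hX, rfl⟩ s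
      exact hM.normal X hX s) d a₀ D
  obtain ⟨E, hE⟩ := h1 G hGG k g A₀ e
  refine ⟨E, fun W ξ l hξ hht C hC u hu hub => ?_⟩
  obtain ⟨hnear, h2⟩ := hE W ξ hξ
  have h3 : ∀ j, (comb β (val h (1 / (ξ - ((G * u j : ℕ) : ℂ))))).det ≠ 0 := fun j =>
    hdet _ (one_div_ne_zero (hnear (u j) (hub j).2).2) ((hnear (u j) (hub j).2).1.trans_le hρ'3)
  exact ⟨h3, he C _ l _ hC h3 (h2 hht u hu hub)⟩

/-- simple Lie algebras -/
theorem simpl {n m : ℕ} {g : Submodule ℂ (Matrix (Fin n) (Fin n) ℂ)} (hg : Simple g m) :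
    Pool.Agent.T2h17.SM.SimpL g m where
  lie := hg.bracket
  ideal := hg.ideal
  noncomm := hg.noncomm
  codim := hg.codim
  large := hg.large

/-- invariant tensors -/
theorem invariant_of {n k D a₀ : ℕ} {g : Submodule ℂ (Matrix (Fin n) (Fin n) ℂ)} {C : Matrix (Fin n) (Fin n) ℂ}
    {B : Fin k → Matrix (Fin n) (Fin n) ℂ} (h : Pool.Agent.T2h17.SM.Inv D a₀ g C B) : Invariant D a₀ g C B := by
  intro a ha b hb T hT Y hY
  have h1 := h a ha b hb T hT Y hY
  rw [dtens_eq, dtens_eq]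
  exact sub_eq_zero.1 h1

/-- the tensors in the windows -/
theorem core {n r m : ℕ} {T : Polynomial ℤ} {A : Fin r → Fin r → Polynomial ℤ}
    {h : Fin r → PowerSeries ℚ} (hG : GFamily T A h) {β : Fin n × Fin n → Fin r → ℂ}
    {N : Matrix (Fin n) (Fin n) ℚ}
    {𝒩 : Set (Matrix (Fin r) (Fin r) ℂ × Matrix (Fin n) (Fin n) ℂ)} (hM : Family β h N 𝒩) (hm : 1 ≤ m)
    (hg : Simple (mon N 𝒩) m) :
    ∃ G0 : ℕ, ∀ G : ℕ, G0 ≤ G → ∀ k g A₀ d D a₀ ν : ℕ, ∃ E : ℕ, ∀ (W : ℕ) (ξ l : ℂ),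
      ((W : ℝ) + 2) ^ E ≤ ‖ξ‖ → Height g A₀ ξ → ∀ C : Matrix (Fin n) (Fin n) ℂ, C.det ≠ 0 →
      ∀ x : ℂ, x ≠ 0 → ∀ T' : Submodule ℂ (Matrix (Fin n) (Fin n) ℂ),
      Pool.Agent.T2h17.TV.Tg d (x • C) ⊔ Submodule.span ℂ {toC N} ≤ T' →
      (1 : Matrix (Fin n) (Fin n) ℂ) ∈ T' → Module.finrank ℂ T' ≤ ν + 1 →
      GenericWindow k D a₀ m ν G W β h N 𝒩 C ξ l := by
  classical
  obtain ⟨G0, hG0, hwin⟩ := windows hG hM
  refine ⟨G0, fun G hGG k g A₀ d D a₀ ν => ?_⟩
  obtain ⟨K, hK⟩ := Pool.Agent.T2h17.SM.win Pool.Agent.T2h17.GP.t_hit Pool.Agent.T2h17.GP.t_lsub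
    Pool.Agent.T2h17.GP.t_gour Pool.Agent.T2h17.GP.t_lieb k m ν hm
  choose E hE using fun K' : ℕ => hwin G hGG K' g A₀ d D a₀
  refine ⟨(Finset.range (K + 2)).sup E, fun W ξ l hξ hht C hC x hx T' hT' h1T hfr => ?_⟩
  have hEK : ∀ K' ≤ K + 1, ((W : ℝ) + 2) ^ E K' ≤ ‖ξ‖ := by
    intro K' hK'
    refine le_trans (pow_le_pow_right₀ (by have := Nat.cast_nonneg (α := ℝ) W; linarith) ?_) hξ
    exact Finset.le_sup (f := E) (Finset.mem_range.2 (by omega))
  have hC' : (x • C).det ≠ 0 := by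
    rw [Matrix.det_smul]
    exact mul_ne_zero (pow_ne_zero _ hx) hC
  set Aa : ℕ → Matrix (Fin n) (Fin n) ℂ := fun u => comb β (val h (1 / (ξ - ((G * u : ℕ) : ℂ)))) *
    expN (toC N) (-(l + Complex.log (1 - ((G * u : ℕ) : ℂ) / ξ))) with hAa
  have hAdet : ∀ u ∈ Finset.Icc 1 W, (Aa u).det ≠ 0 := by
    intro u hu
    rw [Finset.mem_Icc] at hu
    obtain ⟨h1, -⟩ := hE 1 W ξ l (hEK 1 (by omega)) hht C hC (fun _ => u) (fun i j _ => Subsingleton.elim i j)
      (fun _ => hu)
    rw [hAa, Matrix.det_mul]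
    exact mul_ne_zero (h1 0) (Pool.Agent.T2h17.AH.det_En hM.nil _)
  obtain ⟨S, -, hSc, hS⟩ := hK n a₀ D (mon N 𝒩) T' (x • C) (Finset.Icc 1 W) (fun u => Aa u * (x • C)) (simpl hg) hC'
    (fun u hu => by
      rw [Matrix.det_mul]
      exact mul_ne_zero (hAdet u hu) hC') (Or.inr ⟨h1T, hfr⟩) (fun K' hK' u hu huX => by
      obtain ⟨-, h1⟩ := hE K' W ξ l (hEK K' (by omega)) hht (x • C) hC' u hu (fun j => Finset.mem_Icc.1 (huX j))
      intro Y hY
      obtain ⟨Z, hZ, h2⟩ := h1 Y hY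
      exact ⟨Z, hT' hZ, h2⟩)
  refine ⟨S, hSc, fun u hu huS => invariant_of ?_⟩
  have h1 := hS u hu (fun j => ⟨Finset.mem_Icc.2 ⟨(huS j).1, (huS j).2.1⟩, (huS j).2.2⟩)
  exact Pool.Agent.T2h17.SM.inv_smul hC (fun j => hAdet _ (Finset.mem_Icc.2 ⟨(huS j).1, (huS j).2.1⟩)) hx h1

/-- the bound for a fixed rational structure -/
theorem fixed {n : ℕ} {C : Matrix (Fin n) (Fin n) ℂ} (hC : C.det ≠ 0) {τ : ℕ}
    (hτ : ∃ x : ℂ, x ≠ 0 ∧ TrdegLe (x • C) τ) (N : Matrix (Fin n) (Fin n) ℚ) :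
    ∃ (x : ℂ) (d : ℕ), x ≠ 0 ∧
      (1 : Matrix (Fin n) (Fin n) ℂ) ∈ (Pool.Agent.T2h17.TV.Tg d (x • C) ⊔ Submodule.span ℂ {toC N} : Submodule ℂ _) ∧
      Module.finrank ℂ (Pool.Agent.T2h17.TV.Tg d (x • C) ⊔ Submodule.span ℂ {toC N} : Submodule ℂ _) ≤
        (τ + if N = 0 then 0 else 1) + 1 := by
  obtain ⟨x, hx, hdet, h1, h2⟩ := Pool.Agent.T2h17.SM.scale2 hC hτ
  obtain ⟨d, hd⟩ := finrank_fixed hdet h1 N
  exact ⟨x, d, hx, Submodule.mem_sup_left (h2 d), by omega⟩

/-- Let `h_1, …, h_r` be G-functions with rational coefficients, `H = ∑ β h` with algebraic `β`, let `N` be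
the logarithm of the local monodromy, and suppose that the Lie algebra `mon` of the monodromy group is simple,
that its proper subalgebras have codimension at least `m ≥ 1` and that `2 m` is at most its dimension. Let `D`
and `a₀` be bounds for the degrees of number fields and tensors. Consider windows, with a sufficiently large
`G`: all algebraic `ξ` of degree `≤ g` and height `≤ |ξ|^A₀` with `(W + 2)^E ≤ |ξ|` and the points
`x = 1 / (ξ - G u)`, `1 ≤ u ≤ W`. In every window there is a set `S` of points with `m |S| ≤ ν` such that for all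
`k` different points outside `S` the algebraic tensors of type `(a, b)`, `a, b ≤ a₀`, on the direct sum of the `k`
fibres are invariant under the `k`-th power of `mon`, where
(1) for a fixed `C` some multiple of which has transcendence degree at most `τ`: `ν = τ` if `N = 0`, `τ + 1`
otherwise;
(2) for a fixed polarised `C` with complex multiplication: `ν = ⌊n / 2⌋` if `N = 0`, `⌊n / 2⌋ + 1` otherwise;
(3) uniformly in all rational structures `C` which are polarised by `S`: `ν + 1` is the dimension of the Lie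
algebra of the similitudes of `S` which normalise `N`. -/
theorem result {n r m : ℕ} (T : Polynomial ℤ) (A : Fin r → Fin r → Polynomial ℤ)
    (h : Fin r → PowerSeries ℚ) (hG : GFamily T A h) (β : Fin n × Fin n → Fin r → ℂ)
    (N : Matrix (Fin n) (Fin n) ℚ)
    (𝒩 : Set (Matrix (Fin r) (Fin r) ℂ × Matrix (Fin n) (Fin n) ℂ)) (hM : Family β h N 𝒩)
    (hm : 1 ≤ m) (hg : Simple (mon N 𝒩) m) (D a₀ : ℕ) :
    ∃ G0 : ℕ, ∀ G : ℕ, G0 ≤ G → ∀ k g A₀ : ℕ,
      (∀ (C : Matrix (Fin n) (Fin n) ℂ) (τ : ℕ), C.det ≠ 0 → (∃ x : ℂ, x ≠ 0 ∧ TrdegLe (x • C) τ) →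
        ∃ E : ℕ, ∀ (W : ℕ) (ξ l : ℂ), ((W : ℝ) + 2) ^ E ≤ ‖ξ‖ → Height g A₀ ξ → Complex.exp l = ξ →
        GenericWindow k D a₀ m (τ + if N = 0 then 0 else 1) G W β h N 𝒩 C ξ l) ∧
      (∀ (C : Matrix (Fin n) (Fin n) ℂ) (S : Matrix (Fin n) (Fin n) ℚ), C.det ≠ 0 → S.det ≠ 0 →
        Polarised S C → ComplexMultiplication C →
        ∃ E : ℕ, ∀ (W : ℕ) (ξ l : ℂ), ((W : ℝ) + 2) ^ E ≤ ‖ξ‖ → Height g A₀ ξ → Complex.exp l = ξ →
        GenericWindow k D a₀ m (n / 2 + if N = 0 then 0 else 1) G W β h N 𝒩 C ξ l) ∧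
      (∀ S : Matrix (Fin n) (Fin n) ℚ, toC N * toC S + toC S * (toC N).transpose = 0 →
        ∃ E : ℕ, ∀ (W : ℕ) (ξ l : ℂ), ((W : ℝ) + 2) ^ E ≤ ‖ξ‖ → Height g A₀ ξ → Complex.exp l = ξ →
        ∀ C : Matrix (Fin n) (Fin n) ℂ, RationalStructure S N C →
        GenericWindow k D a₀ m (Module.finrank ℂ (Similitudes (toC N) (toC S)) - 1) G W β h N 𝒩 C ξ l) := by
  obtain ⟨G0, hcore⟩ := core hG hM hm hg
  have hfix : ∀ (C : Matrix (Fin n) (Fin n) ℂ) (τ : ℕ), C.det ≠ 0 → (∃ x : ℂ, x ≠ 0 ∧ TrdegLe (x • C) τ) →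
      ∀ G : ℕ, G0 ≤ G → ∀ k g A₀ : ℕ,
        ∃ E : ℕ, ∀ (W : ℕ) (ξ l : ℂ), ((W : ℝ) + 2) ^ E ≤ ‖ξ‖ → Height g A₀ ξ → Complex.exp l = ξ →
        GenericWindow k D a₀ m (τ + if N = 0 then 0 else 1) G W β h N 𝒩 C ξ l := by
    intro C τ hC hτ G hGG k g A₀
    obtain ⟨x, d, hx, h1, h2⟩ := fixed hC hτ N
    obtain ⟨E, hE⟩ := hcore G hGG k g A₀ d D a₀ (τ + if N = 0 then 0 else 1)
    exact ⟨E, fun W ξ l hξ hht _ => hE W ξ l hξ hht C hC x hx _ le_rfl h1 h2⟩
  refine ⟨G0, fun G hGG k g A₀ => ⟨?_, ?_, ?_⟩⟩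
  · exact fun C τ hC hτ => hfix C τ hC hτ G hGG k g A₀
  · rintro C S hC hS ⟨P, κ, hκ, hP⟩ ⟨M, B, hM', hB, hCM⟩
    exact hfix C (n / 2) hC (Pool.Agent.T2h17.SM.cmt2 hS hC hκ hP hB hCM hM') G hGG k g A₀
  · intro S hSN
    obtain ⟨E, hE⟩ := hcore G hGG k g A₀ 2 D a₀ (Module.finrank ℂ (Similitudes (toC N) (toC S)) - 1)
    refine ⟨E, fun W ξ l hξ hht _ C hC => ?_⟩
    refine hE W ξ l hξ hht C hC.det 1 one_ne_zero (Similitudes (toC N) (toC S)) ?_ (one_sim _ _) (by omega)
    rw [one_smul]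
    exact le_sim hSN hC

end Pool.Agent.Results.MP_eeb1a4_ag.SimpleMonodromy
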